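import Pool.Agent.MP7c139f.Example

set_option autoImplicit false
set_option linter.unusedSectionVars false

namespace Pool.Agent.MP7c139f.MultiGraph

theorem leL_spec {as bs : List ℕ} (h : leL as bs = true) (i : ℕ) :
    as.getD i 0 ≤ bs.getD i 0 := by
  induction as generalizing bs i with
  | nil => simp
  | cons a as ih =>
    cases bs with
    | nil => simp [leL] at h
    | cons b bs =>
      rw [leL, Bool.and_eq_true] at h
      cases i with
      | zero => simpa using Nat.le_of_ble_eq_true h.1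
      | succ i => simpa using ih h.2 i

theorem cover_spec (a b c d e f g k : ℕ) (hs : a + b + c + d + e + f + g + k = 5) :
    ∃ t ∈ table, leL [a, b, c, d, e, f, g, k] t.1 = true := by
  have h := coverOk_true
  unfold coverOk at h
  rw [List.all_eq_true] at h
  have h := h a (List.mem_range.2 (by omega))
  rw [List.all_eq_true] at h
  have h := h b (List.mem_range.2 (by omega))
  rw [List.all_eq_true] at h
  have h := h c (List.mem_range.2 (by omega))
  rw [List.all_eq_true] at h
  have h := h d (List.mem_range.2 (by omega))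
  rw [List.all_eq_true] at h
  have h := h e (List.mem_range.2 (by omega))
  rw [List.all_eq_true] at h
  have h := h f (List.mem_range.2 (by omega))
  rw [List.all_eq_true] at h
  have h := h g (List.mem_range.2 (by omega))
  have hk : 5 - a - b - c - d - e - f - g = k := by omega
  rw [hk, List.any_eq_true] at h
  exact h

/-- retraction onto the first block -/
def ρ₀ (v : Fin 14) : Fin 14 := if v.val < 8 then v else 0

/-- retraction onto the second block -/
def σ₀ (v : Fin 14) : Fin 14 := if v.val = 0 ∨ 8 ≤ v.val then v else 0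

theorem table_q : ∀ t ∈ table, ρ₀ t.2.1 = t.2.1 := by decide +kernel

theorem sum14 (D : Fin 14 → ℤ) : ∑ v, D v = D 0 + D 1 + D 2 + D 3 + D 4 + D 5 + D 6 + D 7 + D 8 +
    D 9 + D 10 + D 11 + D 12 + D 13 := by
  simp only [Fin.sum_univ_succ, Finset.univ_unique, Fin.default_eq_zero, Fin.isValue,
    Finset.sum_singleton, Fin.reduceSucc]
  ring

theorem effective_five {D : Fin 14 → ℤ} (h0 : ∀ v, 0 ≤ D v) (hs : ∀ v, ρ₀ v ≠ v → D v = 0)
    (hdeg : ∑ v, D v = 5) : ∃ v, ρ₀ v = v ∧ ¬ G₀.DEff (D - Pi.single v 1) := by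
  have hz : ∀ v : Fin 14, 8 ≤ v.val → D v = 0 := by
    intro v hv
    apply hs
    intro h
    unfold ρ₀ at h
    rw [if_neg (by omega)] at h
    rw [← h] at hv
    simp at hv
  have hsum : (D 0).toNat + (D 1).toNat + (D 2).toNat + (D 3).toNat + (D 4).toNat +
      (D 5).toNat + (D 6).toNat + (D 7).toNat = 5 := by
    rw [sum14] at hdeg
    have e8 := hz 8 (by decide)
    have e9 := hz 9 (by decide)
    have e10 := hz 10 (by decide)
    have e11 := hz 11 (by decide)
    have e12 := hz 12 (by decide)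
    have e13 := hz 13 (by decide)
    have p0 := h0 0
    have p1 := h0 1
    have p2 := h0 2
    have p3 := h0 3
    have p4 := h0 4
    have p5 := h0 5
    have p6 := h0 6
    have p7 := h0 7
    omega
  obtain ⟨t, ht, hle⟩ := cover_spec _ _ _ _ _ _ _ _ hsum
  have hok := List.all_eq_true.1 table_ok t ht
  refine ⟨t.2.1, table_q t ht, entry_spec hok (fun v => ?_)⟩
  by_cases hv : v.val < 8
  · have h1 := leL_spec hle v.val
    have h2 : D v = (([(D 0).toNat, (D 1).toNat, (D 2).toNat, (D 3).toNat, (D 4).toNat,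
        (D 5).toNat, (D 6).toNat, (D 7).toNat].getD v.val 0 : ℕ) : ℤ) := by
      obtain ⟨i, hi⟩ := v
      simp only at hv
      interval_cases i <;> simp [h0]
    rw [h2]
    unfold bd
    exact_mod_cast h1
  · rw [hz v (by omega)]
    unfold bd
    positivity

theorem isWedge₀ : G₀.IsWedge 0 ρ₀ σ₀ where
  rho_edge := by decide +kernel
  sig_edge := by decide +kernel
  rho_idem := by decide +kernel
  sig_idem := by decide +kernel
  rho_of_sig := by decide +kernel
  sig_of_rho := by decide +kernel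
  cover := by decide +kernel
  rho_p := by decide +kernel
  sig_p := by decide +kernel

theorem dEff_of_nonneg {V E : Type} [Fintype V] [Fintype E] [DecidableEq V]
    {G : MultiGraph V E} {D : V → ℤ} (h : ∀ v, 0 ≤ D v) : G.DEff D := by
  refine dEff_of_lap 0 (fun u => ?_)
  have h0 : G.lap 0 u = 0 := by
    have := lap_neg G 0 u
    rw [neg_zero] at this
    linarith
  rw [h0, add_zero]
  exact h u

theorem single_nonneg {V : Type} [DecidableEq V] (v u : V) (n : ℤ) (hn : 0 ≤ n) :
    0 ≤ (Pi.single v n : V → ℤ) u := by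
  by_cases h : u = v
  · rw [h, Pi.single_eq_same]; exact hn
  · rw [Pi.single_eq_of_ne h]

/-- the first block -/
theorem block_one (D : Fin 14 → ℤ) (hs : ∀ v, ρ₀ v ≠ v → D v = 0) (hdeg : ∑ v, D v = 5) :
    ∃ v, ρ₀ v = v ∧ ¬ G₀.DEff (D - Pi.single v 1) := by
  by_cases hD : G₀.DEff D
  · obtain ⟨D', hD', f, hf⟩ := hD
    have hpush : ∀ v, D v - push ρ₀ D' v = G₀.lap (f ∘ ρ₀) v := by
      intro v
      rw [lap_comp G₀ isWedge₀.rho_edge]
      have e1 : G₀.lap f = D - D' := by funext u; rw [← hf u]; rfl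
      rw [e1, push_sub]
      congr 1
      -- `D` is its own push
      unfold push
      by_cases hv : ρ₀ v = v
      · rw [Finset.sum_eq_single v]
        · rw [if_pos hv]
        · intro w _ hw
          by_cases h : ρ₀ w = v
          · rw [if_pos h]
            apply hs
            intro h'
            exact hw (h'.symm.trans h)
          · rw [if_neg h]
        · intro h; exact absurd (Finset.mem_univ v) h
      · rw [hs v hv]
        symm
        refine Finset.sum_eq_zero (fun w _ => ?_)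
        rw [if_neg]
        intro h
        apply hv
        rw [← h]; exact isWedge₀.rho_idem w
    obtain ⟨v, hv, hno⟩ := effective_five (D := push ρ₀ D') (push_nonneg hD')
      (fun v hv => push_eq_zero isWedge₀.rho_idem D' hv) (by
        rw [← hdeg]
        have e := sum_lap G₀ (f ∘ ρ₀)
        rw [← Finset.sum_congr rfl (fun u _ => hpush u), Finset.sum_sub_distrib] at e
        linarith)
    refine ⟨v, hv, fun hcon => hno ?_⟩
    refine hcon.of_equiv (f := -(f ∘ ρ₀)) (fun u => ?_)
    rw [lap_neg, ← hpush u, Pi.sub_apply, Pi.sub_apply]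
    ring
  · refine ⟨0, by decide +kernel, fun hcon => hD ?_⟩
    have := hcon.add (dEff_of_nonneg (G := G₀) (D := Pi.single 0 1)
      (fun u => single_nonneg 0 u 1 (by norm_num)))
    rwa [sub_add_cancel] at this

/-- vertex set of the second block -/
def A₀ : Finset (Fin 14) := {0, 8, 9, 10, 11, 12, 13}

theorem cut₀ (S : Finset (Fin 14)) (h1 : ∃ a ∈ A₀, a ∈ S) (h2 : ∃ a ∈ A₀, a ∉ S) :
    5 < (G₀.cut S).card := by
  have hcard : ((G₀.cut S).card : ℤ) = (edges.map fun p =>
      if (p.1 ∈ S ∧ p.2 ∉ S) ∨ (p.1 ∉ S ∧ p.2 ∈ S) then (1 : ℤ) else 0).sum := by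
    rw [← sum_edges edges edges_ne
      (fun a b => if (a ∈ S ∧ b ∉ S) ∨ (a ∉ S ∧ b ∈ S) then (1 : ℤ) else 0)]
    unfold cut
    rw [Finset.card_filter]
    push_cast
    rfl
  have hsplit : (edges.map fun p =>
      if (p.1 ∈ S ∧ p.2 ∉ S) ∨ (p.1 ∉ S ∧ p.2 ∈ S) then (1 : ℤ) else 0).sum =
      (edgesH.map fun p =>
      if (p.1 ∈ S ∧ p.2 ∉ S) ∨ (p.1 ∉ S ∧ p.2 ∈ S) then (1 : ℤ) else 0).sum +
      (edgesK.map fun p =>
      if (p.1 ∈ S ∧ p.2 ∉ S) ∨ (p.1 ∉ S ∧ p.2 ∈ S) then (1 : ℤ) else 0).sum := by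
    unfold edges
    rw [List.map_append, List.sum_append]
  have hH : 0 ≤ (edgesH.map fun p =>
      if (p.1 ∈ S ∧ p.2 ∉ S) ∨ (p.1 ∉ S ∧ p.2 ∈ S) then (1 : ℤ) else 0).sum := by
    apply List.sum_nonneg
    intro x hx
    rw [List.mem_map] at hx
    obtain ⟨p, _, rfl⟩ := hx
    split_ifs <;> norm_num
  have hK : 5 < (edgesK.map fun p =>
      if (p.1 ∈ S ∧ p.2 ∉ S) ∨ (p.1 ∉ S ∧ p.2 ∈ S) then (1 : ℤ) else 0).sum := by
    have key : ∀ b0 b8 b9 b10 b11 b12 b13 : Bool,
        (b0 || b8 || b9 || b10 || b11 || b12 || b13) = true →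
        (b0 && b8 && b9 && b10 && b11 && b12 && b13) = false →
        5 < ((edgesK.map fun p =>
          (![b0, false, false, false, false, false, false, false, b8, b9, b10, b11, b12, b13] p.1,
           ![b0, false, false, false, false, false, false, false, b8, b9, b10, b11, b12, b13]
            p.2)).map fun q => if q.1 != q.2 then (1 : ℤ) else 0).sum := by
      decide +kernel
    have k := key (decide (0 ∈ S)) (decide (8 ∈ S)) (decide (9 ∈ S)) (decide (10 ∈ S))
      (decide (11 ∈ S)) (decide (12 ∈ S)) (decide (13 ∈ S)) (by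
        obtain ⟨a, ha, haS⟩ := h1
        simp only [A₀, Finset.mem_insert, Finset.mem_singleton] at ha
        rcases ha with rfl | rfl | rfl | rfl | rfl | rfl | rfl <;> simp [haS]) (by
        obtain ⟨a, ha, haS⟩ := h2
        simp only [A₀, Finset.mem_insert, Finset.mem_singleton] at ha
        rcases ha with rfl | rfl | rfl | rfl | rfl | rfl | rfl <;> simp [haS])
    have hval : ∀ v ∈ A₀, ![decide (0 ∈ S), false, false, false, false, false, false, false,
        decide (8 ∈ S), decide (9 ∈ S), decide (10 ∈ S), decide (11 ∈ S), decide (12 ∈ S),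
        decide (13 ∈ S)] v = decide (v ∈ S) := by
      intro v hv
      simp only [A₀, Finset.mem_insert, Finset.mem_singleton] at hv
      rcases hv with rfl | rfl | rfl | rfl | rfl | rfl | rfl <;> rfl
    have hmem : ∀ p ∈ edgesK, p.1 ∈ A₀ ∧ p.2 ∈ A₀ := by decide +kernel
    rw [List.map_map] at k
    refine lt_of_lt_of_eq k ?_
    congr 1
    refine List.map_congr_left (fun p hp => ?_)
    obtain ⟨m1, m2⟩ := hmem p hp
    simp only [Function.comp_apply]
    rw [hval p.1 m1, hval p.2 m2]
    by_cases c1 : p.1 ∈ S <;> by_cases c2 : p.2 ∈ S <;> simp [c1, c2]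
  have : (5 : ℤ) < (G₀.cut S).card := by rw [hcard, hsplit]; linarith
  exact_mod_cast this

theorem metric_lower₀ {D : Pt (Fin 14) (Fin edges.length) →₀ ℤ} (hdeg : mdeg D ≤ 5) :
    ∃ w ∈ A₀, ¬ G₀.MEff (D - Finsupp.single (Sum.inl w) 1) :=
  metric_lower (k := 5) (by decide) cut₀ (by exact_mod_cast hdeg)

theorem discrete_lower₀ {D : Fin 14 → ℤ} (hdeg : ∑ v, D v ≤ 5) :
    ∃ w ∈ A₀, ¬ G₀.DEff (D - Pi.single w 1) := by
  obtain ⟨w, hw, hno⟩ := metric_lower₀ (D := emb D) (by rw [mdeg_emb]; exact hdeg)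
  refine ⟨w, hw, fun h => hno ?_⟩
  have := MEff_emb h
  rwa [emb_sub, emb_single] at this

/-- the second block -/
theorem block_two (D : Fin 14 → ℤ) (hdeg : ∑ v, D v = 5) :
    ∃ v, σ₀ v = v ∧ ¬ G₀.DEff (D - Pi.single v 1) := by
  obtain ⟨w, hw, hno⟩ := discrete_lower₀ hdeg.le
  exact ⟨w, (by decide +kernel : ∀ w ∈ A₀, σ₀ w = w) w hw, hno⟩

/-- no divisor of degree 11 on the graph has rank 2 -/
theorem no_rank_two {D : Fin 14 → ℤ} (hD : ∑ v, D v = 11) : ¬ G₀.RankGe D 2 :=
  wedge_rank isWedge₀ (m := 5) (k := 5) block_one (fun D _ h => block_two D h)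
    (by rw [hD]; norm_num)

end Pool.Agent.MP7c139f.MultiGraph
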