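import Pool.Agent.MP7c139f.Degree

set_option autoImplicit false
set_option linter.unusedSectionVars false

namespace Pool.Agent.MP7c139f.MultiGraph

/-! ### Maximal flat intervals -/

theorem IntPL.flat_right {φ : ℝ → ℝ} {a₀ b₀ : ℝ} (h : IntPL φ a₀ b₀) :
    ∀ s, a₀ ≤ s → s < b₀ → rightSlope φ s = 0 →
      ∃ b, s < b ∧ b ≤ b₀ ∧ (∀ t, s ≤ t → t ≤ b → φ t = φ s) ∧
        (b = b₀ ∨ (b < b₀ ∧ rightSlope φ b ≠ 0)) := by
  induction h with
  | @piece a b hab m h =>
    intro s h1 h2 h3
    have hs : HasRightSlope φ s m := by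
      refine ⟨b - s, by linarith, fun r hr1 hr2 => ?_⟩
      rw [h r (by linarith) (by linarith), h s h1 h2.le]
      ring
    have hm : m = 0 := by rw [← rightSlope_eq hs, h3]
    refine ⟨b, h2, le_rfl, fun t ht1 ht2 => ?_, Or.inl rfl⟩
    rw [h t (h1.trans ht1) ht2, h s h1 h2.le, hm]
    simp
  | @glue a b c h₁ h₂ ih₁ ih₂ =>
    intro s h1 h2 h3
    by_cases hs : s < b
    · obtain ⟨b', e1, e2, e3, e4⟩ := ih₁ s h1 hs h3
      rcases e4 with e4 | ⟨e4, e5⟩
      · subst e4
        by_cases hz : rightSlope φ b' = 0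
        · obtain ⟨b'', f1, f2, f3, f4⟩ := ih₂ b' le_rfl h₂.lt hz
          refine ⟨b'', e1.trans f1, f2, fun t ht1 ht2 => ?_, f4⟩
          rcases le_total t b' with ht | ht
          · exact e3 t ht1 ht
          · rw [f3 t ht ht2, e3 b' e1.le le_rfl]
        · exact ⟨b', e1, h₂.lt.le, e3, Or.inr ⟨h₂.lt, hz⟩⟩
      · exact ⟨b', e1, e2.trans h₂.lt.le, e3, Or.inr ⟨e4.trans h₂.lt, e5⟩⟩
    · exact ih₂ s (not_lt.1 hs) h2 h3

theorem IntPL.flat_left {φ : ℝ → ℝ} {a₀ b₀ : ℝ} (h : IntPL φ a₀ b₀) :
    ∀ s, a₀ < s → s ≤ b₀ → leftSlope φ s = 0 →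
      ∃ a, a < s ∧ a₀ ≤ a ∧ (∀ t, a ≤ t → t ≤ s → φ t = φ s) ∧
        (a = a₀ ∨ (a₀ < a ∧ leftSlope φ a ≠ 0)) := by
  induction h with
  | @piece a b hab m h =>
    intro s h1 h2 h3
    have hs : HasLeftSlope φ s (-m) := by
      refine ⟨s - a, by linarith, fun r hr1 hr2 => ?_⟩
      rw [h r (by linarith) (by linarith), h s h1.le h2]
      push_cast
      ring
    have hm : m = 0 := by
      have := leftSlope_eq hs
      rw [h3] at this
      linarith
    refine ⟨a, h1, le_rfl, fun t ht1 ht2 => ?_, Or.inl rfl⟩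
    rw [h t ht1 (ht2.trans h2), h s h1.le h2, hm]
    simp
  | @glue a b c h₁ h₂ ih₁ ih₂ =>
    intro s h1 h2 h3
    by_cases hs : b < s
    · obtain ⟨a', e1, e2, e3, e4⟩ := ih₂ s hs h2 h3
      rcases e4 with e4 | ⟨e4, e5⟩
      · subst e4
        by_cases hz : leftSlope φ a' = 0
        · obtain ⟨a'', f1, f2, f3, f4⟩ := ih₁ a' h₁.lt le_rfl hz
          refine ⟨a'', f1.trans e1, f2, fun t ht1 ht2 => ?_, f4⟩
          rcases le_total t a' with ht | ht
          · rw [f3 t ht1 ht, e3 a' le_rfl e1.le]
          · exact e3 t ht ht2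
        · exact ⟨a', e1, h₁.lt.le, e3, Or.inr ⟨h₁.lt, hz⟩⟩
      · exact ⟨a', e1, h₁.lt.le.trans e2, e3, Or.inr ⟨h₁.lt.trans e4, e5⟩⟩
    · exact ih₁ s h1 (not_lt.1 hs) h3

variable {V E : Type} [Fintype V] [Fintype E] [DecidableEq V]

/-! ### The tent function on one edge -/

open Classical in
/-- `-max (0, min (t - a, b - t))` on the edge `e` and `0` elsewhere -/
noncomputable def tent (e : E) (a b : ℝ) : Pt V E → ℝ
  | Sum.inl _ => 0
  | Sum.inr (e', t) => if e' = e then - max 0 (min ((t : ℝ) - a) (b - t)) else 0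

theorem edgeFn_tent_self (G : MultiGraph V E) (e : E) {a b : ℝ} (ha : 0 ≤ a) (hb : b ≤ 1)
    {t : ℝ} (h0 : 0 ≤ t) (h1 : t ≤ 1) :
    G.edgeFn (tent e a b) e t = - max 0 (min (t - a) (b - t)) := by
  rw [edgeFn_eq]
  by_cases h : t ∈ Set.Ioo (0 : ℝ) 1
  · rw [pos_mid G e h]; simp [tent]
  · rcases eq_or_lt_of_le h0 with h0 | h0
    · subst h0
      rw [pos_zero]
      have : min ((0 : ℝ) - a) (b - 0) ≤ 0 := (min_le_left _ _).trans (by linarith)
      rw [max_eq_left this]; simp [tent]
    · have : t = 1 := by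
        by_contra hne
        exact h ⟨h0, lt_of_le_of_ne h1 hne⟩
      subst this
      rw [pos_one]
      have : min ((1 : ℝ) - a) (b - 1) ≤ 0 := (min_le_right _ _).trans (by linarith)
      rw [max_eq_left this]; simp [tent]

theorem edgeFn_tent_ne (G : MultiGraph V E) {e e' : E} (he : e' ≠ e) (a b t : ℝ) :
    G.edgeFn (tent e a b) e' t = 0 := by
  rw [edgeFn_eq]
  unfold pos
  split_ifs <;> simp [tent, he]

/-- values of the tent on the three/four pieces -/
theorem tent_low {a b t : ℝ} (h : t ≤ a) : - max 0 (min (t - a) (b - t)) = 0 := by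
  have : min (t - a) (b - t) ≤ 0 := (min_le_left _ _).trans (by linarith)
  rw [max_eq_left this, neg_zero]

theorem tent_high {a b t : ℝ} (h : b ≤ t) : - max 0 (min (t - a) (b - t)) = 0 := by
  have : min (t - a) (b - t) ≤ 0 := (min_le_right _ _).trans (by linarith)
  rw [max_eq_left this, neg_zero]

theorem tent_up {a b t : ℝ} (h1 : a ≤ t) (h2 : t ≤ (a + b) / 2) :
    - max 0 (min (t - a) (b - t)) = - (t - a) := by
  rw [min_eq_left (by linarith), max_eq_right (by linarith)]

theorem tent_down {a b t : ℝ} (h1 : (a + b) / 2 ≤ t) (h2 : t ≤ b) :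
    - max 0 (min (t - a) (b - t)) = - (b - t) := by
  rw [min_eq_right (by linarith), max_eq_right (by linarith)]

theorem isRational_tent (G : MultiGraph V E) (e : E) {a b : ℝ} (ha : 0 ≤ a) (hab : a < b)
    (hb : b ≤ 1) : G.IsRational (tent e a b) := by
  intro e'
  by_cases he : e' = e
  · subst he
    have hmid : IntPL (G.edgeFn (tent e' a b) e') a b := by
      refine .glue (b := (a + b) / 2) (.piece (by linarith) (-1) ?_)
        (.piece (by linarith) 1 ?_)
      · intro t h1 h2
        rw [edgeFn_tent_self G e' ha hb (by linarith) (by linarith),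
          edgeFn_tent_self G e' ha hb ha (by linarith), tent_up h1 h2,
          tent_up le_rfl (by linarith)]
        push_cast; ring
      · intro t h1 h2
        rw [edgeFn_tent_self G e' ha hb (by linarith) (by linarith),
          edgeFn_tent_self G e' ha hb (by linarith) (by linarith), tent_down h1 h2,
          tent_down le_rfl (by linarith)]
        push_cast; ring
    have hlow : ∀ t, 0 ≤ t → t ≤ a → G.edgeFn (tent e' a b) e' t = 0 := by
      intro t h1 h2
      rw [edgeFn_tent_self G e' ha hb h1 (by linarith), tent_low h2]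
    have hhigh : ∀ t, b ≤ t → t ≤ 1 → G.edgeFn (tent e' a b) e' t = 0 := by
      intro t h1 h2
      rw [edgeFn_tent_self G e' ha hb (by linarith) h2, tent_high h1]
    have h0b : IntPL (G.edgeFn (tent e' a b) e') 0 b := by
      rcases eq_or_lt_of_le ha with h | h
      · rw [← h] at hmid ⊢; exact hmid
      · refine .glue (.piece h 0 (fun t h1 h2 => ?_)) hmid
        rw [hlow t h1 h2, hlow 0 le_rfl ha]; simp
    rcases eq_or_lt_of_le hb with h | h
    · rw [h] at h0b ⊢; exact h0b
    · refine .glue h0b (.piece h 0 (fun t h1 h2 => ?_))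
      rw [hhigh t h1 h2, hhigh b le_rfl hb]; simp
  · refine .piece zero_lt_one 0 (fun t _ _ => ?_)
    rw [edgeFn_tent_ne G he, edgeFn_tent_ne G he]; simp

theorem tent_right (G : MultiGraph V E) (e : E) {a b : ℝ} (ha : 0 ≤ a) (hab : a < b)
    (hb : b ≤ 1) {t : ℝ} (h0 : 0 ≤ t) (h1 : t < 1) :
    rightSlope (G.edgeFn (tent e a b) e) t =
      if t < a then 0 else if t < (a + b) / 2 then -1 else if t < b then 1 else 0 := by
  apply rightSlope_eq
  split_ifs with c1 c2 c3
  · refine ⟨a - t, by linarith, fun s hs1 hs2 => ?_⟩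
    rw [edgeFn_tent_self G e ha hb (by linarith) (by linarith),
      edgeFn_tent_self G e ha hb h0 h1.le, tent_low (by linarith), tent_low c1.le]
    simp
  · refine ⟨(a + b) / 2 - t, by linarith, fun s hs1 hs2 => ?_⟩
    rw [edgeFn_tent_self G e ha hb (by linarith) (by linarith),
      edgeFn_tent_self G e ha hb h0 h1.le, tent_up (by linarith) (by linarith),
      tent_up (not_lt.1 c1) c2.le]
    push_cast; ring
  · refine ⟨b - t, by linarith, fun s hs1 hs2 => ?_⟩
    rw [edgeFn_tent_self G e ha hb (by linarith) (by linarith),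
      edgeFn_tent_self G e ha hb h0 h1.le, tent_down (by linarith) (by linarith),
      tent_down (not_lt.1 c2) c3.le]
    push_cast; ring
  · refine ⟨1 - t, by linarith, fun s hs1 hs2 => ?_⟩
    rw [edgeFn_tent_self G e ha hb (by linarith) (by linarith),
      edgeFn_tent_self G e ha hb h0 h1.le, tent_high (by linarith), tent_high (not_lt.1 c3)]
    simp

theorem tent_left (G : MultiGraph V E) (e : E) {a b : ℝ} (ha : 0 ≤ a) (hab : a < b)
    (hb : b ≤ 1) {t : ℝ} (h0 : 0 < t) (h1 : t ≤ 1) :
    leftSlope (G.edgeFn (tent e a b) e) t =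
      if t ≤ a then 0 else if t ≤ (a + b) / 2 then 1 else if t ≤ b then -1 else 0 := by
  apply leftSlope_eq
  split_ifs with c1 c2 c3
  · refine ⟨t, h0, fun s hs1 hs2 => ?_⟩
    rw [edgeFn_tent_self G e ha hb (by linarith) (by linarith),
      edgeFn_tent_self G e ha hb h0.le h1, tent_low (by linarith), tent_low c1]
    simp
  · push Not at c1
    refine ⟨t - a, by linarith, fun s hs1 hs2 => ?_⟩
    rw [edgeFn_tent_self G e ha hb (by linarith) (by linarith),
      edgeFn_tent_self G e ha hb h0.le h1, tent_up (by linarith) (by linarith),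
      tent_up c1.le c2]
    push_cast; ring
  · push Not at c1 c2
    refine ⟨t - (a + b) / 2, by linarith, fun s hs1 hs2 => ?_⟩
    rw [edgeFn_tent_self G e ha hb (by linarith) (by linarith),
      edgeFn_tent_self G e ha hb h0.le h1, tent_down (by linarith) (by linarith),
      tent_down c2.le c3]
    push_cast; ring
  · push Not at c1 c2 c3
    refine ⟨t - b, by linarith, fun s hs1 hs2 => ?_⟩
    rw [edgeFn_tent_self G e ha hb (by linarith) (by linarith),
      edgeFn_tent_self G e ha hb h0.le h1, tent_high (by linarith), tent_high c3.le]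
    simp

/-- Two chips on a closed edge can be moved towards each other. -/
theorem tent_effective (G : MultiGraph V E) (e : E) {a b : ℝ} (ha : 0 ≤ a) (hab : a < b)
    (hb : b ≤ 1) {D : Pt V E → ℤ} (hD : ∀ x, 0 ≤ D x) (hDa : 1 ≤ D (G.pos e a))
    (hDb : 1 ≤ D (G.pos e b)) (x : Pt V E) : 0 ≤ D x + G.div (tent e a b) x := by
  classical
  rcases x with v | ⟨e', t, ht⟩
  · rw [div_inl]
    have key : ∀ e', ((if G.src e' = v then rightSlope (G.edgeFn (tent e a b) e') 0 else 0) +
        (if G.tgt e' = v then leftSlope (G.edgeFn (tent e a b) e') 1 else 0)) =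
        if e' = e then ((if G.src e = v then (if a = 0 then (-1 : ℤ) else 0) else 0) +
          (if G.tgt e = v then (if b = 1 then (-1 : ℤ) else 0) else 0)) else 0 := by
      intro e'
      by_cases he : e' = e
      · subst he
        rw [if_pos rfl, tent_right G e' ha hab hb le_rfl zero_lt_one,
          tent_left G e' ha hab hb zero_lt_one le_rfl]
        have h1 : (if (0 : ℝ) < a then (0 : ℤ) else if 0 < (a + b) / 2 then -1
            else if 0 < b then 1 else 0) = if a = 0 then -1 else 0 := by
          by_cases h : a = 0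
          · rw [if_neg (by rw [h]; exact lt_irrefl _), if_pos (by linarith), if_pos h]
          · rw [if_pos (lt_of_le_of_ne ha (Ne.symm h)), if_neg h]
        have h2 : (if (1 : ℝ) ≤ a then (0 : ℤ) else if 1 ≤ (a + b) / 2 then 1
            else if 1 ≤ b then -1 else 0) = if b = 1 then -1 else 0 := by
          rw [if_neg (by linarith), if_neg (by linarith)]
          by_cases h : b = 1
          · rw [if_pos h.ge, if_pos h]
          · rw [if_neg (fun h' => h (le_antisymm hb h')), if_neg h]
        rw [h1, h2]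
      · rw [if_neg he]
        have z : G.edgeFn (tent e a b) e' = fun _ => 0 := by
          funext t; exact edgeFn_tent_ne G he a b t
        have z1 : rightSlope (fun _ : ℝ => (0 : ℝ)) 0 = 0 :=
          rightSlope_eq ⟨1, one_pos, fun _ _ _ => by simp⟩
        have z2 : leftSlope (fun _ : ℝ => (0 : ℝ)) 1 = 0 :=
          leftSlope_eq ⟨1, one_pos, fun _ _ _ => by simp⟩
        rw [z, z1, z2]; simp
    rw [Finset.sum_congr rfl (fun e' _ => key e'), Finset.sum_ite_eq' Finset.univ e,
      if_pos (Finset.mem_univ e)]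
    have hv := hD (Sum.inl v)
    by_cases h1 : G.src e = v
    · have h2 : G.tgt e ≠ v := fun h => G.loopless e (h1.trans h.symm)
      rw [if_pos h1, if_neg h2]
      by_cases h3 : a = 0
      · rw [h3, pos_zero, h1] at hDa
        rw [if_pos h3]; linarith
      · rw [if_neg h3]; linarith
    · rw [if_neg h1]
      by_cases h2 : G.tgt e = v
      · rw [if_pos h2]
        by_cases h3 : b = 1
        · rw [h3, pos_one, h2] at hDb
          rw [if_pos h3]; linarith
        · rw [if_neg h3]; linarith
      · rw [if_neg h2]; linarith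
  · rw [div_inr]
    by_cases he : e' = e
    · subst he
      rw [tent_right G e' ha hab hb ht.1.le ht.2, tent_left G e' ha hab hb ht.1 ht.2.le]
      have hx := hD (Sum.inr (e', ⟨t, ht⟩))
      rcases lt_trichotomy t a with h | h | h
      · rw [if_pos h, if_pos h.le]; linarith
      · subst h
        rw [pos_mid G e' ht] at hDa
        rw [if_neg (lt_irrefl _), if_pos (by linarith), if_pos le_rfl]; linarith
      · rw [if_neg (not_lt.2 h.le), if_neg (not_le.2 h)]
        rcases lt_trichotomy t b with h' | h' | h'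
        · by_cases h3 : t ≤ (a + b) / 2
          · rw [if_pos h3]
            split_ifs <;> linarith
          · rw [if_neg h3, if_neg (fun h4 => h3 h4.le), if_pos h', if_pos h'.le]; linarith
        · subst h'
          rw [pos_mid G e' ht] at hDb
          rw [if_neg (by linarith), if_neg (lt_irrefl _), if_neg (by linarith), if_pos le_rfl]
          linarith
        · rw [if_neg (by linarith), if_neg (by linarith), if_neg (by linarith),
            if_neg (by linarith)]
          linarith
    · have z : G.edgeFn (tent e a b) e' = fun _ => 0 := by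
        funext t; exact edgeFn_tent_ne G he a b t
      have z1 : rightSlope (fun _ : ℝ => (0 : ℝ)) t = 0 :=
        rightSlope_eq ⟨1, one_pos, fun _ _ _ => by simp⟩
      have z2 : leftSlope (fun _ : ℝ => (0 : ℝ)) t = 0 :=
        leftSlope_eq ⟨1, one_pos, fun _ _ _ => by simp⟩
      rw [z, z1, z2]
      simpa using hD (Sum.inr (e', ⟨t, ht⟩))

/-! ### The closure lemma -/

/-- A chip can be put at an interior point where the function is not locally constant. -/
theorem mEff_sub_of_slope {G : MultiGraph V E} {D : Pt V E →₀ ℤ} {f : Pt V E → ℝ}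
    (hf : G.IsRational f) (h1 : ∀ x, 0 ≤ D x) (h2 : ∀ x, 0 ≤ D x + G.div f x)
    {e : E} {t : Set.Ioo (0 : ℝ) 1}
    (hs : 0 < rightSlope (G.edgeFn f e) t ∨ 0 < leftSlope (G.edgeFn f e) t) :
    G.MEff (D - Finsupp.single (Sum.inr (e, t)) 1) := by
  classical
  refine mEff_of_div (hf.max_const (f (Sum.inr (e, t)))) (fun x => ?_)
  rw [Finsupp.sub_apply]
  have hl := level hf (f (Sum.inr (e, t))) h1 h2 x
  by_cases hx : Sum.inr (e, t) = x
  · subst hx
    rw [Finsupp.single_eq_same]
    have := div_max_pos hf (c := f (Sum.inr (e, t))) rfl hs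
    have := h1 (Sum.inr (e, t))
    omega
  · rw [Finsupp.single_eq_of_ne (Ne.symm hx)]
    linarith

theorem MEff.exists_of_sub {G : MultiGraph V E} {D : Pt V E →₀ ℤ} {x : Pt V E}
    (h : G.MEff (D - Finsupp.single x 1)) :
    ∃ D' : Pt V E →₀ ℤ, (∀ y, 0 ≤ D' y) ∧ 1 ≤ D' x ∧ G.MEquiv D D' := by
  classical
  obtain ⟨A, hA, hAe⟩ := h
  refine ⟨A + Finsupp.single x 1, fun y => ?_, ?_, ?_⟩
  · rw [Finsupp.add_apply]
    refine add_nonneg (hA y) ?_
    by_cases hy : x = y
    · rw [hy, Finsupp.single_eq_same]; norm_num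
    · rw [Finsupp.single_eq_of_ne (Ne.symm hy)]
  · rw [Finsupp.add_apply, Finsupp.single_eq_same]
    have := hA x
    linarith
  · have := hAe.add_right (Finsupp.single x 1)
    rwa [sub_add_cancel] at this

theorem closure {G : MultiGraph V E} {D : Pt V E →₀ ℤ}
    (h : ∀ v, G.MEff (D - Finsupp.single (Sum.inl v) 1)) (x : Pt V E) :
    G.MEff (D - Finsupp.single x 1) := by
  classical
  rcases x with v | ⟨e, s⟩
  · exact h v
  obtain ⟨D₁, hD₁, hu, hE₁⟩ := (h (G.src e)).exists_of_sub
  obtain ⟨D₂, hD₂, hv, hE₂⟩ := (h (G.tgt e)).exists_of_sub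
  obtain ⟨f, hf, hfe⟩ := hE₂.symm.trans hE₁
  -- `D₂ = D₁ + div f`
  have hsum : ∀ x, D₂ x = D₁ x + G.div f x := fun x => by have := hfe x; linarith
  have h2 : ∀ x, 0 ≤ D₁ x + G.div f x := fun x => by rw [← hsum x]; exact hD₂ x
  have h2' : ∀ x, 0 ≤ D₂ x + G.div (fun x => - f x) x := fun x => by
    rw [div_neg hf, hsum x]; have := hD₁ x; linarith
  have hφ := hf e
  set φ := G.edgeFn f e with hφdef
  -- non-flat cases
  by_cases hpos : 0 < rightSlope φ s ∨ 0 < leftSlope φ s
  · exact (mEff_sub_of_slope hf hD₁ h2 hpos).of_equiv (hE₁.sub_right _)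
  by_cases hneg : rightSlope φ s < 0 ∨ leftSlope φ s < 0
  · refine (mEff_sub_of_slope hf.neg hD₂ h2' (e := e) (t := s) ?_).of_equiv (hE₂.sub_right _)
    rw [edgeFn_neg, rs_neg hφ s.2.1.le s.2.2, ls_neg hφ s.2.1 s.2.2.le]
    rcases hneg with hneg | hneg
    · left; linarith
    · right; linarith
  push Not at hpos hneg
  have hr0 : rightSlope φ s = 0 := le_antisymm hpos.1 hneg.1
  have hl0 : leftSlope φ s = 0 := le_antisymm hpos.2 hneg.2
  obtain ⟨b, hsb, hb1, hbflat, hbend⟩ := hφ.flat_right s s.2.1.le s.2.2 hr0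
  obtain ⟨a, has, ha0, haflat, haend⟩ := hφ.flat_left s s.2.1 s.2.2.le hl0
  set c := φ s with hc
  -- the divisor at level `c`
  set D₃ : Pt V E →₀ ℤ := D₁ + G.divF _ (hf.max_const c) with hD₃
  have hD₃a : ∀ x, D₃ x = D₁ x + G.div (fun x => max (f x) c) x := fun x => by
    rw [hD₃, Finsupp.add_apply, divF_apply]
  have hD₃0 : ∀ x, 0 ≤ D₃ x := fun x => by rw [hD₃a]; exact level hf c hD₁ h2 x
  have hE₃ : G.MEquiv D₁ D₃ := by
    refine ⟨fun x => - max (f x) c, (hf.max_const c).neg, fun x => ?_⟩
    rw [div_neg (hf.max_const c), hD₃a]; ring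
  have hfb : f (G.pos e b) = c := by
    have := hbflat b hsb.le le_rfl
    rw [hφdef, edgeFn_eq] at this
    exact this
  have hfa : f (G.pos e a) = c := by
    have := haflat a le_rfl has.le
    rw [hφdef, edgeFn_eq] at this
    exact this
  have hDb : 1 ≤ D₃ (G.pos e b) := by
    rw [hD₃a]
    have hge := div_max_ge hf hfb
    have hnn := div_max_nonneg hf hfb
    rcases hbend with hb | ⟨hb, hbs⟩
    · rw [hb, pos_one] at hge ⊢
      have := hsum (Sum.inl (G.tgt e))
      linarith
    · have hbm : b ∈ Set.Ioo (0 : ℝ) 1 := ⟨s.2.1.trans hsb, hb⟩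
      rw [pos_mid G e hbm] at hge hnn hfb ⊢
      rcases lt_or_gt_of_ne hbs with hbs | hbs
      · -- negative slope: `D₁` has a chip there
        have hlb : leftSlope φ b = 0 := by
          apply leftSlope_eq
          refine ⟨b - s, by linarith, fun r hr1 hr2 => ?_⟩
          rw [hbflat r (by linarith) hr2.le, hbflat b hsb.le le_rfl]; simp
        have h2b := h2 (Sum.inr (e, ⟨b, hbm⟩))
        rw [div_inr] at h2b
        have : rightSlope (G.edgeFn f e) b = rightSlope φ b := rfl
        have : leftSlope (G.edgeFn f e) b = leftSlope φ b := rfl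
        simp only at h2b
        omega
      · have := div_max_pos hf (c := c) (e := e) (t := ⟨b, hbm⟩) hfb (Or.inl hbs)
        have := hD₁ (Sum.inr (e, ⟨b, hbm⟩))
        omega
  have hDa : 1 ≤ D₃ (G.pos e a) := by
    rw [hD₃a]
    have hge := div_max_ge hf hfa
    have hnn := div_max_nonneg hf hfa
    rcases haend with ha | ⟨ha, has'⟩
    · rw [ha, pos_zero] at hnn ⊢
      linarith
    · have ham : a ∈ Set.Ioo (0 : ℝ) 1 := ⟨ha, has.trans s.2.2⟩
      rw [pos_mid G e ham] at hge hnn hfa ⊢
      rcases lt_or_gt_of_ne has' with has' | has'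
      · have hra : rightSlope φ a = 0 := by
          apply rightSlope_eq
          refine ⟨s - a, by linarith, fun r hr1 hr2 => ?_⟩
          rw [haflat r hr1.le (by linarith), haflat a le_rfl has.le]; simp
        have h2a := h2 (Sum.inr (e, ⟨a, ham⟩))
        rw [div_inr] at h2a
        have : rightSlope (G.edgeFn f e) a = rightSlope φ a := rfl
        have : leftSlope (G.edgeFn f e) a = leftSlope φ a := rfl
        simp only at h2a
        omega
      · have := div_max_pos hf (c := c) (e := e) (t := ⟨a, ham⟩) hfa (Or.inr has')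
        have := hD₁ (Sum.inr (e, ⟨a, ham⟩))
        omega
  -- move the two chips towards each other
  have hab : a < b := has.trans hsb
  refine (mEff_sub_of_slope (isRational_tent G e ha0 hab hb1) hD₃0
    (tent_effective G e ha0 hab hb1 hD₃0 hDa hDb) (e := e) (t := s) ?_).of_equiv
    ((hE₁.trans hE₃).sub_right _)
  rw [tent_right G e ha0 hab hb1 s.2.1.le s.2.2, tent_left G e ha0 hab hb1 s.2.1 s.2.2.le]
  by_cases hm : (s : ℝ) ≤ (a + b) / 2
  · right
    rw [if_neg (not_le.2 has), if_pos hm]; norm_num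
  · left
    rw [if_neg (not_lt.2 has.le), if_neg (fun h => hm h.le), if_pos hsb]; norm_num

/-! ### Rank from the vertices -/

/-- recursive form of the property that all vertex chips can be removed -/
def VRank (G : MultiGraph V E) : ℕ → (Pt V E →₀ ℤ) → Prop
  | 0, D => G.MEff D
  | r + 1, D => ∀ v, VRank G r (D - Finsupp.single (Sum.inl v) 1)

theorem mRankGe_of_vRank {G : MultiGraph V E} (r : ℕ) :
    ∀ D : Pt V E →₀ ℤ, G.VRank r D → G.MRankGe D r := by
  classical
  induction r with
  | zero =>
    intro D hD A hA hdeg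
    have hA0 : A = 0 := by
      ext x
      by_contra hx
      have hmem : x ∈ A.support := Finsupp.mem_support_iff.2 hx
      have h1 : A x ≤ mdeg A := Finset.single_le_sum (f := fun x => A x) (fun y _ => hA y) hmem
      rw [hdeg] at h1
      exact hx (le_antisymm (by simpa using h1) (hA x))
    rw [hA0, sub_zero]
    exact hD
  | succ r ih =>
    intro D hD A hA hdeg
    have hex : ∃ x, 1 ≤ A x := by
      by_contra hno
      push Not at hno
      have : mdeg A ≤ 0 := Finset.sum_nonpos (fun x _ => by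
        have := hno x
        show A x ≤ 0
        omega)
      rw [hdeg] at this
      push_cast at this
      linarith
    obtain ⟨x, hx⟩ := hex
    set A' := A - Finsupp.single x 1 with hA'
    have hA'0 : ∀ y, 0 ≤ A' y := by
      intro y
      rw [hA', Finsupp.sub_apply]
      by_cases hy : x = y
      · rw [← hy, Finsupp.single_eq_same]; linarith
      · rw [Finsupp.single_eq_of_ne (Ne.symm hy)]; simpa using hA y
    have hA'd : mdeg A' = r := by
      rw [hA', mdeg_sub, mdeg_single, hdeg]; push_cast; ring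
    have key : ∀ v, G.MEff ((D - A') - Finsupp.single (Sum.inl v) 1) := by
      intro v
      have := ih _ (hD v) A' hA'0 hA'd
      have e : D - Finsupp.single (Sum.inl v) 1 - A' = (D - A') - Finsupp.single (Sum.inl v) 1 := by
        abel
      rw [e] at this
      exact this
    have := closure key x
    have e : D - A' - Finsupp.single x 1 = D - A := by
      rw [hA']; abel
    rw [e] at this
    exact this

end Pool.Agent.MP7c139f.MultiGraph
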