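import Mathlib

/-!
# Divisors on a finite multigraph and on its metric graph

Definitions for the comparison of the `r`-th divisorial gonality of a graph `G` and of the metric
graph `Γ(G)` with unit edge lengths.
-/

set_option autoImplicit false

namespace Pool.Agent.MP7c139f

/-- A multigraph without loops, with vertex type `V` and edge type `E` (parallel edges allowed).
Every edge `e` joins the two distinct vertices `src e` and `tgt e`; the orientation is only used to
parametrise the edge. -/
structure MultiGraph (V E : Type) where
  src : E → V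
  tgt : E → V
  loopless : ∀ e, src e ≠ tgt e

namespace MultiGraph

variable {V E : Type}

/-- Two vertices are adjacent if some edge joins them. -/
def Adj (G : MultiGraph V E) (u v : V) : Prop :=
  ∃ e, (G.src e = u ∧ G.tgt e = v) ∨ (G.src e = v ∧ G.tgt e = u)

/-- The multigraph is connected: nonempty, and any two vertices are joined by a walk. -/
def Connected (G : MultiGraph V E) : Prop :=
  Nonempty V ∧ ∀ u v, Relation.ReflTransGen G.Adj u v

/-! ### Divisors on the graph: functions `V → ℤ` -/

/-- The graph Laplacian: `D + lap f` is obtained from `D` by firing each vertex `v` exactly `f v`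
times, since firing `v` subtracts `deg v` at `v` and adds the number of edges joining `v` and `w`
at every `w ≠ v`. -/
def lap [Fintype E] [DecidableEq V] (G : MultiGraph V E) (f : V → ℤ) (v : V) : ℤ :=
  ∑ e, ((if G.src e = v then f (G.tgt e) - f v else 0) +
        (if G.tgt e = v then f (G.src e) - f v else 0))

/-- Equivalence of divisors on the graph: the difference lies in the image of the Laplacian. -/
def Equiv [Fintype E] [DecidableEq V] (G : MultiGraph V E) (D D' : V → ℤ) : Prop :=
  ∃ f : V → ℤ, ∀ v, D v - D' v = G.lap f v

/-- `D` has rank at least `r` on the graph: for every effective divisor `A` of degree `r`, the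
divisor `D - A` is equivalent to an effective divisor. -/
def RankGe [Fintype V] [Fintype E] [DecidableEq V] (G : MultiGraph V E) (D : V → ℤ) (r : ℕ) :
    Prop :=
  ∀ A : V → ℤ, (∀ v, 0 ≤ A v) → ∑ v, A v = r →
    ∃ D' : V → ℤ, (∀ v, 0 ≤ D' v) ∧ G.Equiv (D - A) D'

/-- `d` is the `r`-th divisorial gonality of the graph: the least degree of a divisor of rank at
least `r`. -/
def IsDgon [Fintype V] [Fintype E] [DecidableEq V] (G : MultiGraph V E) (r d : ℕ) : Prop :=
  IsLeast {d : ℕ | ∃ D : V → ℤ, ∑ v, D v = d ∧ G.RankGe D r} d

/-! ### The metric graph `Γ(G)`, all edges of length one -/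

/-- The points of the metric graph: the vertices, and for every edge `e` the open unit segment; the
point `(e, t)` has distance `t` from `src e` and distance `1 - t` from `tgt e` along `e`. -/
abbrev Pt (V E : Type) : Type := V ⊕ (E × Set.Ioo (0 : ℝ) 1)

/-- The restriction of a function on the metric graph to the closed edge `e`, as a function of the
distance `t ∈ [0, 1]` from `src e`. -/
noncomputable def edgeFn (G : MultiGraph V E) (f : Pt V E → ℝ) (e : E) (t : ℝ) : ℝ :=
  if h : t ∈ Set.Ioo (0 : ℝ) 1 then f (Sum.inr (e, ⟨t, h⟩))
  else if t ≤ 0 then f (Sum.inl (G.src e)) else f (Sum.inl (G.tgt e))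

/-- `φ` is (continuous and) piecewise linear with integer slopes and finitely many pieces on the
interval `[a, b]`: the interval can be cut into finitely many closed intervals on each of which `φ`
is affine with an integer slope. -/
inductive IntPL (φ : ℝ → ℝ) : ℝ → ℝ → Prop
  | piece {a b : ℝ} (hab : a < b) (m : ℤ)
      (h : ∀ t, a ≤ t → t ≤ b → φ t = φ a + m * (t - a)) : IntPL φ a b
  | glue {a b c : ℝ} (h₁ : IntPL φ a b) (h₂ : IntPL φ b c) : IntPL φ a c

/-- A continuous piecewise linear function with integer slopes and finitely many pieces on the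
metric graph. -/
def IsRational (G : MultiGraph V E) (f : Pt V E → ℝ) : Prop :=
  ∀ e, IntPL (G.edgeFn f e) 0 1

/-- `φ` has slope `m` at `t` in the direction of increasing parameter. -/
def HasRightSlope (φ : ℝ → ℝ) (t : ℝ) (m : ℤ) : Prop :=
  ∃ ε > 0, ∀ s, t < s → s < t + ε → φ s = φ t + m * (s - t)

/-- `φ` has slope `m` at `t` in the direction of decreasing parameter (the rate of increase of `φ`
when one leaves `t` towards smaller parameters). -/
def HasLeftSlope (φ : ℝ → ℝ) (t : ℝ) (m : ℤ) : Prop :=
  ∃ ε > 0, ∀ s, t - ε < s → s < t → φ s = φ t + m * (t - s)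

open Classical in
/-- The outgoing slope of `φ` at `t` in the direction of increasing parameter. -/
noncomputable def rightSlope (φ : ℝ → ℝ) (t : ℝ) : ℤ :=
  if h : ∃ m, HasRightSlope φ t m then h.choose else 0

open Classical in
/-- The outgoing slope of `φ` at `t` in the direction of decreasing parameter. -/
noncomputable def leftSlope (φ : ℝ → ℝ) (t : ℝ) : ℤ :=
  if h : ∃ m, HasLeftSlope φ t m then h.choose else 0

/-- `div f` at a point is the sum of the outgoing slopes of `f` over all directions at that
point. -/
noncomputable def div [Fintype E] [DecidableEq V] (G : MultiGraph V E) (f : Pt V E → ℝ) :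
    Pt V E → ℤ
  | Sum.inl v => ∑ e, ((if G.src e = v then rightSlope (G.edgeFn f e) 0 else 0) +
      (if G.tgt e = v then leftSlope (G.edgeFn f e) 1 else 0))
  | Sum.inr (e, t) => rightSlope (G.edgeFn f e) t + leftSlope (G.edgeFn f e) t

/-- The degree of a divisor (a finitely supported function) on the metric graph. -/
noncomputable def mdeg (D : Pt V E →₀ ℤ) : ℤ := D.sum fun _ n => n

/-- Equivalence of divisors on the metric graph. -/
def MEquiv [Fintype E] [DecidableEq V] (G : MultiGraph V E) (D D' : Pt V E →₀ ℤ) : Prop :=
  ∃ f : Pt V E → ℝ, G.IsRational f ∧ ∀ x, D x - D' x = G.div f x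

/-- `D` has rank at least `r` on the metric graph: for every effective divisor `A` of degree `r`
(supported anywhere on the metric graph), `D - A` is equivalent to an effective divisor. -/
def MRankGe [Fintype E] [DecidableEq V] (G : MultiGraph V E) (D : Pt V E →₀ ℤ) (r : ℕ) : Prop :=
  ∀ A : Pt V E →₀ ℤ, (∀ x, 0 ≤ A x) → mdeg A = r →
    ∃ D' : Pt V E →₀ ℤ, (∀ x, 0 ≤ D' x) ∧ G.MEquiv (D - A) D'

/-- `d` is the `r`-th divisorial gonality of the metric graph. -/
def IsMDgon [Fintype E] [DecidableEq V] (G : MultiGraph V E) (r d : ℕ) : Prop :=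
  IsLeast {d : ℕ | ∃ D : Pt V E →₀ ℤ, mdeg D = d ∧ G.MRankGe D r} d

end MultiGraph

end Pool.Agent.MP7c139f
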