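import Pool.Agent.MP7c139f.Gamma

set_option autoImplicit false

namespace Pool.Agent.MP7c139f.MultiGraph

variable {V E : Type} [Fintype V] [Fintype E] [DecidableEq V]

open Classical in
/-- `div f` vanishes outside a finite set and has total sum zero. -/
theorem exists_support {G : MultiGraph V E} {f : Pt V E → ℝ} (hf : G.IsRational f) :
    ∃ S : Finset (Pt V E), (∀ x, x ∉ S → G.div f x = 0) ∧ ∑ x ∈ S, G.div f x = 0 := by
  choose B hB hz hs using fun e => (hf e).telescope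
  set T : E → Finset (Set.Ioo (0 : ℝ) 1) := fun e => (B e).subtype (fun t => t ∈ Set.Ioo (0 : ℝ) 1)
    with hT
  set T' : Finset (E × Set.Ioo (0 : ℝ) 1) :=
    (Finset.univ.sigma T).map (Equiv.sigmaEquivProd E (Set.Ioo (0 : ℝ) 1)).toEmbedding with hT'
  refine ⟨(Finset.univ : Finset V).disjSum T', ?_, ?_⟩
  · rintro (v | ⟨e, t⟩) hx
    · exact absurd (Finset.inl_mem_disjSum.2 (Finset.mem_univ v)) hx
    · rw [div_inr]
      apply hz e t t.2.1 t.2.2
      intro ht
      apply hx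
      rw [Finset.inr_mem_disjSum, hT', Finset.mem_map]
      refine ⟨⟨e, t⟩, ?_, rfl⟩
      rw [Finset.mem_sigma]
      exact ⟨Finset.mem_univ _, Finset.mem_subtype.2 ht⟩
  · rw [Finset.sum_disjSum, hT', Finset.sum_map, Finset.sum_sigma]
    have e1 : ∑ v, G.div f (Sum.inl v) =
        ∑ e, (rightSlope (G.edgeFn f e) 0 + leftSlope (G.edgeFn f e) 1) := by
      simp only [div_inl]
      rw [Finset.sum_comm]
      refine Finset.sum_congr rfl (fun e _ => ?_)
      rw [Finset.sum_add_distrib]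
      simp
    have e2 : ∀ e, ∑ t ∈ T e, G.div f (Sum.inr ((Equiv.sigmaEquivProd E
        (Set.Ioo (0 : ℝ) 1)).toEmbedding ⟨e, t⟩)) =
        ∑ t ∈ B e, (rightSlope (G.edgeFn f e) t + leftSlope (G.edgeFn f e) t) := by
      intro e
      have : ∀ t : Set.Ioo (0 : ℝ) 1, G.div f (Sum.inr ((Equiv.sigmaEquivProd E
        (Set.Ioo (0 : ℝ) 1)).toEmbedding ⟨e, t⟩)) =
          rightSlope (G.edgeFn f e) t + leftSlope (G.edgeFn f e) t := fun t => rfl
      simp only [this, hT]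
      exact Finset.sum_subtype_of_mem
        (fun t => rightSlope (G.edgeFn f e) t + leftSlope (G.edgeFn f e) t)
        (fun t ht => hB e t ht)
    rw [e1, Finset.sum_congr rfl (fun e _ => e2 e), ← Finset.sum_add_distrib]
    refine Finset.sum_eq_zero (fun e _ => ?_)
    have := hs e
    linarith

open Classical in
theorem div_finite {G : MultiGraph V E} {f : Pt V E → ℝ} (hf : G.IsRational f) :
    (Function.support (G.div f)).Finite := by
  obtain ⟨S, hS, _⟩ := exists_support hf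
  refine S.finite_toSet.subset (fun x hx => ?_)
  by_contra h
  exact hx (hS x h)

/-- `div f` as a divisor -/
noncomputable def divF (G : MultiGraph V E) (f : Pt V E → ℝ) (hf : G.IsRational f) :
    Pt V E →₀ ℤ := Finsupp.ofSupportFinite (G.div f) (div_finite hf)

theorem divF_apply (G : MultiGraph V E) (f : Pt V E → ℝ) (hf : G.IsRational f) (x : Pt V E) :
    G.divF f hf x = G.div f x := rfl

theorem mdeg_eq_sum {D : Pt V E →₀ ℤ} {S : Finset (Pt V E)} (h : ∀ x, x ∉ S → D x = 0) :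
    mdeg D = ∑ x ∈ S, D x := by
  unfold mdeg
  refine Finsupp.sum_of_support_subset D ?_ _ (fun _ _ => rfl)
  intro x hx
  by_contra hxS
  exact (Finsupp.mem_support_iff.1 hx) (h x hxS)

theorem mdeg_add (D D' : Pt V E →₀ ℤ) : mdeg (D + D') = mdeg D + mdeg D' := by
  unfold mdeg
  exact Finsupp.sum_add_index' (fun _ => rfl) (fun _ _ _ => rfl)

theorem mdeg_neg (D : Pt V E →₀ ℤ) : mdeg (-D) = - mdeg D := by
  have h := mdeg_add D (-D)
  rw [add_neg_cancel] at h
  have h0 : mdeg (0 : Pt V E →₀ ℤ) = 0 := Finsupp.sum_zero_index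
  linarith

theorem mdeg_sub (D D' : Pt V E →₀ ℤ) : mdeg (D - D') = mdeg D - mdeg D' := by
  rw [sub_eq_add_neg, mdeg_add, mdeg_neg]; ring

theorem mdeg_single (x : Pt V E) (n : ℤ) : mdeg (Finsupp.single x n) = n := by
  unfold mdeg
  exact Finsupp.sum_single_index rfl

theorem mdeg_divF (G : MultiGraph V E) (f : Pt V E → ℝ) (hf : G.IsRational f) :
    mdeg (G.divF f hf) = 0 := by
  obtain ⟨S, hS, hs⟩ := exists_support hf
  rw [mdeg_eq_sum hS]
  exact hs

/-! ### Equivalence -/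

theorem MEquiv.refl (G : MultiGraph V E) (D : Pt V E →₀ ℤ) : G.MEquiv D D :=
  ⟨fun _ => 0, isRational_zero G, fun x => by rw [div_zero]; ring⟩

theorem MEquiv.symm {G : MultiGraph V E} {D D' : Pt V E →₀ ℤ} (h : G.MEquiv D D') :
    G.MEquiv D' D := by
  obtain ⟨f, hf, h⟩ := h
  refine ⟨fun x => - f x, hf.neg, fun x => ?_⟩
  rw [div_neg hf, ← h x]; ring

theorem MEquiv.trans {G : MultiGraph V E} {D D' D'' : Pt V E →₀ ℤ} (h : G.MEquiv D D')
    (h' : G.MEquiv D' D'') : G.MEquiv D D'' := by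
  obtain ⟨f, hf, h⟩ := h
  obtain ⟨g, hg, h'⟩ := h'
  refine ⟨fun x => f x + g x, hf.add hg, fun x => ?_⟩
  rw [div_add hf hg, ← h x, ← h' x]; ring

theorem MEquiv.add_right {G : MultiGraph V E} {D D' : Pt V E →₀ ℤ} (h : G.MEquiv D D')
    (A : Pt V E →₀ ℤ) : G.MEquiv (D + A) (D' + A) := by
  obtain ⟨f, hf, h⟩ := h
  refine ⟨f, hf, fun x => ?_⟩
  rw [← h x, Finsupp.add_apply, Finsupp.add_apply]; ring

theorem MEquiv.sub_right {G : MultiGraph V E} {D D' : Pt V E →₀ ℤ} (h : G.MEquiv D D')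
    (A : Pt V E →₀ ℤ) : G.MEquiv (D - A) (D' - A) := by
  rw [sub_eq_add_neg, sub_eq_add_neg]; exact h.add_right _

theorem MEquiv.mdeg_eq {G : MultiGraph V E} {D D' : Pt V E →₀ ℤ} (h : G.MEquiv D D') :
    mdeg D = mdeg D' := by
  obtain ⟨f, hf, h⟩ := h
  have : D - D' = G.divF f hf := by
    ext x; rw [Finsupp.sub_apply, divF_apply]; exact h x
  have e := congrArg mdeg this
  rw [mdeg_sub, mdeg_divF] at e
  linarith

/-- `D` is equivalent to an effective divisor. -/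
def MEff (G : MultiGraph V E) (D : Pt V E →₀ ℤ) : Prop :=
  ∃ D' : Pt V E →₀ ℤ, (∀ x, 0 ≤ D' x) ∧ G.MEquiv D D'

theorem MEff.of_equiv {G : MultiGraph V E} {D D' : Pt V E →₀ ℤ} (h : G.MEff D')
    (e : G.MEquiv D D') : G.MEff D := by
  obtain ⟨A, hA, h⟩ := h
  exact ⟨A, hA, e.trans h⟩

theorem MEff.add {G : MultiGraph V E} {D A : Pt V E →₀ ℤ} (h : G.MEff D) (hA : ∀ x, 0 ≤ A x) :
    G.MEff (D + A) := by
  obtain ⟨B, hB, h⟩ := h
  exact ⟨B + A, fun x => by rw [Finsupp.add_apply]; exact add_nonneg (hB x) (hA x), h.add_right A⟩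

theorem mEff_of_div {G : MultiGraph V E} {D : Pt V E →₀ ℤ} {f : Pt V E → ℝ}
    (hf : G.IsRational f) (h : ∀ x, 0 ≤ D x + G.div f x) : G.MEff D := by
  refine ⟨D + G.divF f hf, h, ?_⟩
  refine ⟨fun x => - f x, hf.neg, fun x => ?_⟩
  rw [div_neg hf, Finsupp.add_apply, divF_apply]; ring

theorem mdeg_nonneg {D : Pt V E →₀ ℤ} (h : ∀ x, 0 ≤ D x) : 0 ≤ mdeg D :=
  Finset.sum_nonneg (fun x _ => h x)

end Pool.Agent.MP7c139f.MultiGraph
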