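import Pool.Agent.MP7c139f.Interp

set_option autoImplicit false
set_option linter.unusedSectionVars false

namespace Pool.Agent.MP7c139f.MultiGraph

variable {V E : Type} [Fintype V] [Fintype E] [DecidableEq V]

/-! ### The Laplacian edge by edge -/

theorem lap_eq (G : MultiGraph V E) (f : V → ℤ) (v : V) :
    G.lap f v = ∑ e, (f (G.tgt e) - f (G.src e)) *
      ((if G.src e = v then 1 else 0) - (if G.tgt e = v then 1 else 0)) := by
  unfold lap
  refine Finset.sum_congr rfl (fun e _ => ?_)
  by_cases h1 : G.src e = v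
  · by_cases h2 : G.tgt e = v
    · exact absurd (h1.trans h2.symm) (G.loopless e)
    · rw [if_pos h1, if_neg h2, if_pos h1, if_neg h2, h1]; ring
  · by_cases h2 : G.tgt e = v
    · rw [if_neg h1, if_pos h2, if_neg h1, if_pos h2, h2]; ring
    · rw [if_neg h1, if_neg h2, if_neg h1, if_neg h2]; ring

theorem sum_lap (G : MultiGraph V E) (f : V → ℤ) : ∑ v, G.lap f v = 0 := by
  simp only [lap_eq]
  rw [Finset.sum_comm]
  refine Finset.sum_eq_zero (fun e _ => ?_)
  rw [← Finset.mul_sum, Finset.sum_sub_distrib]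
  simp

/-- push forward of a divisor along a map of vertices -/
def push (ρ : V → V) (D : V → ℤ) (v : V) : ℤ := ∑ w, if ρ w = v then D w else 0

theorem push_nonneg {ρ : V → V} {D : V → ℤ} (h : ∀ v, 0 ≤ D v) (v : V) : 0 ≤ push ρ D v := by
  refine Finset.sum_nonneg (fun w _ => ?_)
  split_ifs
  · exact h w
  · exact le_rfl

theorem push_sub (ρ : V → V) (D D' : V → ℤ) (v : V) :
    push ρ (D - D') v = push ρ D v - push ρ D' v := by
  unfold push
  rw [← Finset.sum_sub_distrib]
  refine Finset.sum_congr rfl (fun w _ => ?_)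
  rw [Pi.sub_apply]
  split_ifs <;> ring

theorem push_single (ρ : V → V) (u : V) (n : ℤ) (v : V) :
    push ρ (Pi.single u n) v = (Pi.single (ρ u) n : V → ℤ) v := by
  unfold push
  rw [Finset.sum_eq_single u]
  · rw [Pi.single_eq_same]
    by_cases h : ρ u = v
    · rw [if_pos h, ← h, Pi.single_eq_same]
    · rw [if_neg h, Pi.single_eq_of_ne (Ne.symm h)]
  · intro w _ hw
    rw [Pi.single_eq_of_ne hw]; simp
  · intro h; exact absurd (Finset.mem_univ u) h

theorem sum_push (ρ : V → V) (D : V → ℤ) : ∑ v, push ρ D v = ∑ v, D v := by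
  unfold push
  rw [Finset.sum_comm]
  refine Finset.sum_congr rfl (fun w _ => ?_)
  simp

theorem push_eq_zero {ρ : V → V} (hρ : ∀ w, ρ (ρ w) = ρ w) (D : V → ℤ) {v : V} (hv : ρ v ≠ v) :
    push ρ D v = 0 := by
  unfold push
  refine Finset.sum_eq_zero (fun w _ => ?_)
  rw [if_neg]
  intro h
  apply hv
  rw [← h]; exact hρ w

/-- compatible retractions commute with the Laplacian -/
theorem lap_comp (G : MultiGraph V E) {ρ : V → V}
    (hρ : ∀ e, (ρ (G.src e) = G.src e ∧ ρ (G.tgt e) = G.tgt e) ∨ ρ (G.src e) = ρ (G.tgt e))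
    (f : V → ℤ) (v : V) : G.lap (f ∘ ρ) v = push ρ (G.lap f) v := by
  have e1 : push ρ (G.lap f) v = ∑ e, (f (G.tgt e) - f (G.src e)) *
      ((if ρ (G.src e) = v then 1 else 0) - (if ρ (G.tgt e) = v then 1 else 0)) := by
    unfold push
    have : ∀ w, (if ρ w = v then G.lap f w else 0) = ∑ e, (f (G.tgt e) - f (G.src e)) *
      ((if G.src e = w then (if ρ w = v then 1 else 0) else 0) -
        (if G.tgt e = w then (if ρ w = v then 1 else 0) else 0)) := by
      intro w
      rw [lap_eq]
      by_cases h : ρ w = v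
      · simp only [if_pos h]
      · simp only [if_neg h]; simp
    simp only [this]
    rw [Finset.sum_comm]
    refine Finset.sum_congr rfl (fun e _ => ?_)
    rw [← Finset.mul_sum, Finset.sum_sub_distrib, Finset.sum_ite_eq, Finset.sum_ite_eq,
      if_pos (Finset.mem_univ _), if_pos (Finset.mem_univ _)]
  rw [e1, lap_eq]
  refine Finset.sum_congr rfl (fun e _ => ?_)
  rcases hρ e with ⟨h1, h2⟩ | h
  · simp only [Function.comp_apply, h1, h2]
  · simp only [Function.comp_apply, h]; ring

/-! ### The wedge argument -/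

theorem DEff.of_equiv {G : MultiGraph V E} {D D' : V → ℤ} (h : G.DEff D') {f : V → ℤ}
    (hf : ∀ v, D v - D' v = G.lap f v) : G.DEff D := by
  obtain ⟨g, hg⟩ := h.exists_lap
  refine dEff_of_lap (g - f) (fun v => ?_)
  have : G.lap (g - f) v = G.lap g v - G.lap f v := by
    rw [sub_eq_add_neg, lap_add, lap_neg]; ring
  rw [this, ← hf v]
  have := hg v
  linarith

/-- A wedge of two graphs at `p`, given by the two retractions. -/
structure IsWedge (G : MultiGraph V E) (p : V) (ρ σ : V → V) : Prop where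
  rho_edge : ∀ e, (ρ (G.src e) = G.src e ∧ ρ (G.tgt e) = G.tgt e) ∨ ρ (G.src e) = ρ (G.tgt e)
  sig_edge : ∀ e, (σ (G.src e) = G.src e ∧ σ (G.tgt e) = G.tgt e) ∨ σ (G.src e) = σ (G.tgt e)
  rho_idem : ∀ v, ρ (ρ v) = ρ v
  sig_idem : ∀ v, σ (σ v) = σ v
  rho_of_sig : ∀ v, σ v = v → ρ v = p
  sig_of_rho : ∀ v, ρ v = v → σ v = p
  cover : ∀ v, ρ v = v ∨ σ v = v
  rho_p : ρ p = p
  sig_p : σ p = p

theorem push_p_add {G : MultiGraph V E} {p : V} {ρ σ : V → V} (h : G.IsWedge p ρ σ)
    (D : V → ℤ) : push ρ D p + push σ D p = ∑ v, D v + D p := by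
  unfold push
  rw [← Finset.sum_add_distrib]
  have : ∀ w, ((if ρ w = p then D w else 0) + (if σ w = p then D w else 0)) =
      D w + (if w = p then D w else 0) := by
    intro w
    by_cases hw : w = p
    · rw [hw, if_pos h.rho_p, if_pos h.sig_p, if_pos rfl]
    · rw [if_neg hw]
      rcases h.cover w with hc | hc
      · rw [if_neg (by rw [hc]; exact hw), if_pos (h.sig_of_rho w hc), zero_add, add_zero]
      · rw [if_pos (h.rho_of_sig w hc), if_neg (by rw [hc]; exact hw)]
  rw [Finset.sum_congr rfl (fun w _ => this w), Finset.sum_add_distrib,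
    Finset.sum_ite_eq' Finset.univ p, if_pos (Finset.mem_univ p)]

theorem wedge_half {G : MultiGraph V E} {p : V} {ρ : V → V} {m : ℤ}
    (he : ∀ e, (ρ (G.src e) = G.src e ∧ ρ (G.tgt e) = G.tgt e) ∨ ρ (G.src e) = ρ (G.tgt e))
    {D D' : V → ℤ} {f : V → ℤ} {v w : V} (hv : ρ v = v) (hw : ρ w = p) (hD' : ∀ u, 0 ≤ D' u)
    (hf : ∀ u, (D - (Pi.single v 1 + Pi.single w 1) : V → ℤ) u - D' u = G.lap f u)
    (hno : ¬ G.DEff (push ρ D - Pi.single p (m + 1) - Pi.single v 1)) : push ρ D' p < m := by
  by_contra hcon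
  push Not at hcon
  apply hno
  have heff : G.DEff (push ρ D' - Pi.single p m) := by
    refine dEff_of_lap 0 (fun u => ?_)
    have h0 : G.lap 0 u = 0 := by
      have := lap_neg G 0 u
      rw [neg_zero] at this
      linarith
    rw [h0, Pi.sub_apply]
    by_cases hu : u = p
    · rw [hu, Pi.single_eq_same]; linarith
    · rw [Pi.single_eq_of_ne hu]
      have := push_nonneg (ρ := ρ) hD' u
      linarith
  refine heff.of_equiv (f := f ∘ ρ) (fun u => ?_)
  rw [lap_comp G he]
  have e1 : G.lap f = D - (Pi.single v 1 + Pi.single w 1) - D' := by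
    funext u; rw [← hf u]; rfl
  have e2 : D - (Pi.single v 1 + Pi.single w 1) - D' =
      ((D - Pi.single v 1) - Pi.single w 1) - D' := by abel
  rw [e1, e2, push_sub, push_sub, push_sub, push_single, push_single, hv, hw]
  have e3 : (Pi.single p (m + 1) : V → ℤ) = Pi.single p m + Pi.single p 1 := by
    rw [← Pi.single_add]
  simp only [Pi.sub_apply, e3, Pi.add_apply]
  ring

theorem wedge_rank {G : MultiGraph V E} {p : V} {ρ σ : V → V} (h : G.IsWedge p ρ σ) {m k : ℤ}
    (hH : ∀ D : V → ℤ, (∀ v, ρ v ≠ v → D v = 0) → ∑ v, D v = m →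
      ∃ v, ρ v = v ∧ ¬ G.DEff (D - Pi.single v 1))
    (hK : ∀ D : V → ℤ, (∀ v, σ v ≠ v → D v = 0) → ∑ v, D v = k →
      ∃ v, σ v = v ∧ ¬ G.DEff (D - Pi.single v 1))
    {D : V → ℤ} (hD : ∑ v, D v = m + k + 1) : ¬ G.RankGe D 2 := by
  intro hr
  obtain ⟨v, hv, hvno⟩ := hH (push ρ D - Pi.single p (k + 1)) (by
      intro u hu
      rw [Pi.sub_apply, push_eq_zero h.rho_idem D hu, Pi.single_eq_of_ne]
      · ring
      · intro hup; apply hu; rw [hup]; exact h.rho_p) (by
      simp only [Pi.sub_apply]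
      rw [Finset.sum_sub_distrib, sum_push, Finset.sum_pi_single', hD,
        if_pos (Finset.mem_univ p)]
      ring)
  obtain ⟨w, hw, hwno⟩ := hK (push σ D - Pi.single p (m + 1)) (by
      intro u hu
      rw [Pi.sub_apply, push_eq_zero h.sig_idem D hu, Pi.single_eq_of_ne]
      · ring
      · intro hup; apply hu; rw [hup]; exact h.sig_p) (by
      simp only [Pi.sub_apply]
      rw [Finset.sum_sub_distrib, sum_push, Finset.sum_pi_single', hD,
        if_pos (Finset.mem_univ p)]
      ring)
  obtain ⟨D', hD', f, hf⟩ := hr (Pi.single v 1 + Pi.single w 1) (by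
      intro u
      rw [Pi.add_apply]
      refine add_nonneg ?_ ?_
      · by_cases hu : u = v
        · rw [hu, Pi.single_eq_same]; norm_num
        · rw [Pi.single_eq_of_ne hu]
      · by_cases hu : u = w
        · rw [hu, Pi.single_eq_same]; norm_num
        · rw [Pi.single_eq_of_ne hu]) (by
      simp only [Pi.add_apply]
      rw [Finset.sum_add_distrib, Finset.sum_pi_single', Finset.sum_pi_single',
        if_pos (Finset.mem_univ v), if_pos (Finset.mem_univ w)]
      norm_num)
  have h1 := wedge_half (m := k) h.rho_edge hv (h.rho_of_sig w hw) hD' hf hvno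
  have hf' : ∀ u, (D - (Pi.single w 1 + Pi.single v 1) : V → ℤ) u - D' u = G.lap f u := by
    intro u; rw [add_comm (Pi.single w 1) (Pi.single v 1)]; exact hf u
  have h2 := wedge_half (m := m) h.sig_edge hw (h.sig_of_rho v hv) hD' hf' hwno
  have h3 := push_p_add h D'
  have h4 : ∑ u, D' u = m + k + 1 - 2 := by
    have e := sum_lap G f
    rw [← Finset.sum_congr rfl (fun u _ => hf u)] at e
    simp only [Pi.sub_apply, Pi.add_apply] at e
    rw [Finset.sum_sub_distrib, Finset.sum_sub_distrib, Finset.sum_add_distrib,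
      Finset.sum_pi_single', Finset.sum_pi_single', if_pos (Finset.mem_univ v),
      if_pos (Finset.mem_univ w), hD] at e
    linarith
  have h5 := hD' p
  omega

/-! ### Burning -/

/-- Dhar's burning certificate in terms of a rank function. -/
theorem not_dEff_of_burn (G : MultiGraph V E) (R : V → ℤ) (rk : V → ℕ) (q : V) (hq : R q < 0)
    (h : ∀ v, v ≠ q → R v < ∑ e, ((if G.src e = v ∧ rk (G.tgt e) < rk v then (1 : ℤ) else 0) +
      (if G.tgt e = v ∧ rk (G.src e) < rk v then 1 else 0))) : ¬ G.DEff R := by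
  intro hR
  obtain ⟨f, hf⟩ := hR.exists_lap
  obtain ⟨u, -, hu⟩ := Finset.exists_max_image Finset.univ f ⟨q, Finset.mem_univ q⟩
  set S : Finset V := Finset.univ.filter fun v => f v = f u with hS
  have hmemS : ∀ v, v ∈ S ↔ f v = f u := fun v => by simp [hS]
  have hmax : ∀ v, f v ≤ f u := fun v => hu v (Finset.mem_univ v)
  obtain ⟨v, hvS, hvmin⟩ := Finset.exists_min_image S rk ⟨u, (hmemS u).2 rfl⟩
  have hfv := (hmemS v).1 hvS
  have hlow : ∀ w, rk w < rk v → f w < f v := by
    intro w hw
    rw [hfv]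
    refine lt_of_le_of_ne (hmax w) (fun he => ?_)
    exact absurd (hvmin w ((hmemS w).2 he)) (not_le.2 hw)
  have hle : ∀ w, f w ≤ f v := fun w => by rw [hfv]; exact hmax w
  by_cases hvq : v = q
  · have hl : G.lap f v ≤ 0 := by
      unfold lap
      refine Finset.sum_nonpos (fun e _ => ?_)
      have := hle (G.tgt e)
      have := hle (G.src e)
      split_ifs <;> linarith
    have := hf v
    rw [hvq] at this hl
    linarith
  · have hl : G.lap f v ≤ - ∑ e, ((if G.src e = v ∧ rk (G.tgt e) < rk v then (1 : ℤ) else 0) +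
        (if G.tgt e = v ∧ rk (G.src e) < rk v then 1 else 0)) := by
      unfold lap
      rw [← Finset.sum_neg_distrib]
      refine Finset.sum_le_sum (fun e _ => ?_)
      have h1 := hle (G.tgt e)
      have h2 := hle (G.src e)
      have h3 := hlow (G.tgt e)
      have h4 := hlow (G.src e)
      by_cases c1 : G.src e = v <;> by_cases c2 : G.tgt e = v <;>
        by_cases c3 : rk (G.tgt e) < rk v <;> by_cases c4 : rk (G.src e) < rk v <;>
        simp only [c1, c2, c3, c4, true_and, false_and, and_true, and_false, if_true, if_false] at * <;>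
        first
        | omega
        | (have := h3 c3; omega)
        | (have := h4 c4; omega)
    have := hf v
    have := h v hvq
    linarith

end Pool.Agent.MP7c139f.MultiGraph
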