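import Pool.Agent.MP7c139f.Lower
import Pool.Agent.MP7c139f.Wedge

set_option autoImplicit false
set_option linter.unusedSectionVars false

namespace Pool.Agent.MP7c139f.MultiGraph

/-- The multigraph with vertex set `Fin n` given by a list of edges. -/
def ofList {n : ℕ} (l : List (Fin n × Fin n)) (h : ∀ p ∈ l, p.1 ≠ p.2) :
    MultiGraph (Fin n) (Fin l.length) where
  src e := (l[e.val]'e.2).1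
  tgt e := (l[e.val]'e.2).2
  loopless _ := h _ (List.getElem_mem _)

/-- The edges of the first block, on the vertices `0, ..., 7`. -/
def edgesH : List (Fin 14 × Fin 14) := [
  (0, 1), (0, 1), (0, 2), (0, 2), (0, 3), (0, 4), (1, 2), (1, 3), (2, 4), (3, 4), (3, 4),
  (0, 5), (0, 5), (1, 6), (1, 6), (2, 7), (2, 7)]

/-- The edges of the complete graph on `0, 8, 9, 10, 11, 12, 13`. -/
def edgesK : List (Fin 14 × Fin 14) := [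
  (0, 8), (0, 9), (0, 10), (0, 11), (0, 12), (0, 13), (8, 9), (8, 10), (8, 11), (8, 12), (8,
  13), (9, 10), (9, 11), (9, 12), (9, 13), (10, 11), (10, 12), (10, 13), (11, 12), (11, 13),
  (12, 13)]

/-- All edges of the example. -/
def edges : List (Fin 14 × Fin 14) := edgesH ++ edgesK

theorem edges_ne : ∀ p ∈ edges, p.1 ≠ p.2 := by decide +kernel

theorem edges_length : edges.length = 38 := by decide +kernel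

/-- The example. -/
def G₀ : MultiGraph (Fin 14) (Fin edges.length) := ofList edges edges_ne

/-! ### Sums over the edges as sums over the list -/

theorem sum_edges {n : ℕ} (l : List (Fin n × Fin n)) (h : ∀ p ∈ l, p.1 ≠ p.2)
    (F : Fin n → Fin n → ℤ) :
    ∑ e, F ((ofList l h).src e) ((ofList l h).tgt e) = (l.map fun p => F p.1 p.2).sum := by
  exact Fin.sum_univ_fun_getElem l (fun p => F p.1 p.2)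

/-- the Laplacian computed from the list -/
def lapL (f : Fin 14 → ℤ) (v : Fin 14) : ℤ :=
  (edges.map fun p => (if p.1 = v then f p.2 - f v else 0) +
    (if p.2 = v then f p.1 - f v else 0)).sum

theorem lap_G₀ (f : Fin 14 → ℤ) (v : Fin 14) : G₀.lap f v = lapL f v :=
  sum_edges edges edges_ne (fun a b => (if a = v then f b - f v else 0) +
    (if b = v then f a - f v else 0))

/-- the number of edges to vertices of smaller rank -/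
def cntL (rk : Fin 14 → ℕ) (v : Fin 14) : ℤ :=
  (edges.map fun p => (if p.1 = v ∧ rk p.2 < rk v then (1 : ℤ) else 0) +
    (if p.2 = v ∧ rk p.1 < rk v then 1 else 0)).sum

theorem cnt_G₀ (rk : Fin 14 → ℕ) (v : Fin 14) :
    ∑ e, ((if G₀.src e = v ∧ rk (G₀.tgt e) < rk v then (1 : ℤ) else 0) +
      (if G₀.tgt e = v ∧ rk (G₀.src e) < rk v then 1 else 0)) = cntL rk v :=
  sum_edges edges edges_ne (fun a b => (if a = v ∧ rk b < rk v then (1 : ℤ) else 0) +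
    (if b = v ∧ rk a < rk v then 1 else 0))

/-! ### The first block has no divisor of degree 5 and rank 1 -/

/-- firing vectors on the first block, constant on the second one -/
def fn (l : List ℤ) (v : Fin 14) : ℤ := l.getD v.val (l.getD 0 0)

/-- upper bounds on the first block, zero elsewhere -/
def bd (l : List ℕ) (v : Fin 14) : ℤ := (l.getD v.val 0 : ℕ)

/-- ranks for the burning process -/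
def rk (l : List ℕ) (v : Fin 14) : ℕ := l.getD v.val (v.val + 10)

/-- A certificate: bound, vertex, firing vector, burning order. -/
def entryOk (t : List ℕ × Fin 14 × List ℤ × List ℕ) : Bool :=
  decide (bd t.1 t.2.1 - 1 + lapL (fn t.2.2.1) t.2.1 < 0) &&
    decide (∀ v : Fin 14, v ≠ t.2.1 → bd t.1 v + lapL (fn t.2.2.1) v < cntL (rk t.2.2.2) v)

/-- The table of certificates. -/
def table : List (List ℕ × Fin 14 × List ℤ × List ℕ) := [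
  ([1, 2, 3, 0, 1, 1, 1, 1], 3, [0, 0, 1, 0, 0, 0, 0, 1], [3, 4, 1, 0, 2, 5, 6, 7]),
  ([1, 1, 1, 2, 1, 1, 3, 0], 7, [0, 1, 0, 0, 0, 0, 3, 0], [4, 2, 3, 6, 5, 7, 1, 0]),
  ([1, 0, 1, 1, 2, 1, 1, 3], 1, [0, 0, 0, 0, 0, 0, 0, 1], [1, 0, 4, 2, 3, 5, 6, 7]),
  ([3, 1, 0, 1, 0, 3, 1, 1], 4, [0, 0, 0, 0, 0, 1, 0, 1], [5, 4, 3, 1, 0, 6, 7, 2]),
  ([1, 1, 2, 1, 3, 0, 1, 1], 5, [0, 0, 0, 0, 1, 0, 0, 0], [2, 3, 4, 5, 1, 0, 6, 7]),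
  ([0, 3, 1, 2, 1, 1, 1, 1], 0, [0, 0, 0, 0, 0, 0, 1, 0], [0, 6, 1, 3, 2, 4, 5, 7]),
  ([3, 0, 1, 0, 1, 3, 1, 1], 1, [0, 0, 0, 0, 0, 1, 0, 0], [4, 0, 3, 1, 2, 5, 6, 7]),
  ([1, 0, 2, 3, 1, 1, 1, 1], 1, [0, 0, 0, 0, 0, 0, 0, 1], [1, 0, 5, 7, 6, 2, 3, 4]),
  ([2, 1, 1, 0, 2, 1, 0, 3], 6, [0, 0, 1, 0, 0, 0, 0, 2], [4, 2, 1, 3, 5, 6, 0, 7]),
  ([1, 1, 0, 1, 0, 1, 3, 3], 4, [0, 0, 0, 0, 0, 0, 1, 1], [2, 4, 3, 1, 0, 5, 6, 7]),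
  ([2, 2, 1, 3, 0, 1, 1, 0], 7, [0, 0, 0, 0, 0, 0, 0, 0], [3, 4, 1, 5, 2, 6, 7, 0]),
  ([0, 1, 2, 0, 2, 1, 3, 1], 0, [0, 0, 0, 0, 0, 0, 1, 0], [0, 4, 3, 1, 2, 5, 6, 7]),
  ([1, 1, 0, 1, 3, 3, 0, 1], 6, [0, 0, 0, 0, 0, 2, 0, 0], [4, 1, 2, 5, 6, 3, 0, 7]),
  ([1, 3, 1, 1, 0, 3, 1, 0], 7, [0, 0, 0, 0, 0, 2, 0, 0], [5, 6, 1, 3, 2, 4, 7, 0]),
  ([1, 2, 1, 2, 0, 0, 1, 3], 5, [0, 0, 0, 0, 0, 0, 0, 1], [1, 4, 5, 3, 2, 0, 6, 7]),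
  ([3, 0, 0, 2, 3, 1, 0, 1], 6, [0, 0, 0, 1, 1, 0, 0, 0], [5, 1, 4, 2, 3, 6, 0, 7]),
  ([3, 0, 3, 1, 0, 1, 1, 1], 4, [0, 0, 0, 0, 0, 1, 0, 1], [4, 2, 7, 1, 0, 3, 5, 6]),
  ([1, 2, 0, 1, 4, 1, 1, 0], 7, [0, 0, 0, 1, 1, 0, 0, 0], [4, 5, 1, 2, 3, 6, 7, 0]),
  ([3, 2, 0, 0, 0, 1, 3, 1], 4, [0, 1, 0, 0, 0, 0, 3, 0], [5, 3, 4, 1, 0, 6, 2, 7]),
  ([0, 0, 0, 3, 0, 3, 3, 1], 2, [0, 0, 0, 0, 0, 1, 1, 0], [2, 3, 0, 4, 1, 5, 6, 7]),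
  ([0, 1, 0, 5, 2, 1, 1, 0], 7, [0, 0, 0, 1, 1, 0, 0, 0], [3, 4, 1, 5, 2, 6, 7, 0]),
  ([0, 1, 3, 0, 2, 3, 0, 1], 6, [0, 0, 0, 0, 0, 2, 0, 0], [4, 1, 6, 2, 5, 3, 0, 7]),
  ([5, 1, 0, 0, 1, 1, 1, 1], 3, [0, 0, 0, 0, 0, 0, 0, 0], [4, 3, 2, 0, 1, 5, 6, 7]),
  ([0, 0, 5, 0, 1, 1, 0, 3], 6, [0, 0, 1, 0, 0, 0, 0, 2], [3, 1, 5, 2, 4, 6, 0, 7]),
  ([1, 0, 1, 1, 0, 3, 1, 3], 4, [0, 0, 0, 0, 0, 1, 0, 1], [3, 2, 4, 1, 0, 5, 6, 7]),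
  ([1, 1, 0, 0, 1, 5, 1, 1], 3, [0, 0, 0, 0, 0, 2, 0, 0], [4, 3, 2, 0, 1, 5, 6, 7]),
  ([1, 4, 2, 0, 0, 1, 1, 1], 4, [0, 1, 0, 0, 0, 0, 1, 0], [3, 2, 4, 1, 0, 5, 6, 7]),
  ([1, 0, 2, 0, 0, 1, 5, 1], 4, [0, 1, 0, 0, 0, 0, 3, 0], [3, 2, 4, 1, 0, 5, 6, 7]),
  ([1, 2, 0, 0, 0, 1, 1, 5], 3, [0, 0, 1, 0, 0, 0, 0, 3], [3, 4, 2, 0, 1, 5, 6, 7]),
  ([1, 3, 0, 0, 2, 0, 1, 3], 5, [0, 0, 0, 0, 0, 0, 0, 1], [1, 5, 4, 2, 3, 0, 6, 7]),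
  ([0, 1, 3, 4, 0, 0, 1, 1], 5, [0, 0, 0, 1, 0, 0, 0, 0], [1, 3, 5, 2, 4, 0, 6, 7]),
  ([1, 0, 1, 1, 3, 0, 3, 1], 5, [0, 0, 0, 0, 0, 0, 1, 0], [1, 3, 2, 4, 5, 0, 6, 7]),
  ([1, 0, 1, 3, 1, 3, 1, 0], 7, [0, 0, 0, 0, 0, 2, 0, 0], [4, 2, 1, 6, 5, 3, 7, 0]),
  ([0, 0, 1, 2, 5, 1, 0, 1], 6, [0, 0, 0, 1, 1, 0, 0, 0], [3, 1, 4, 2, 5, 6, 0, 7]),
  ([0, 3, 0, 1, 0, 1, 5, 0], 7, [0, 1, 0, 0, 0, 0, 3, 0], [3, 5, 1, 4, 2, 6, 7, 0]),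
  ([3, 0, 2, 0, 0, 1, 1, 3], 3, [0, 0, 1, 0, 0, 0, 0, 2], [4, 3, 2, 0, 1, 5, 6, 7]),
  ([0, 1, 0, 3, 1, 1, 1, 3], 0, [0, 0, 0, 0, 0, 0, 1, 1], [0, 3, 4, 6, 5, 1, 2, 7]),
  ([1, 2, 4, 0, 0, 1, 1, 1], 3, [0, 0, 1, 0, 0, 0, 0, 1], [3, 4, 2, 0, 1, 5, 6, 7]),
  ([3, 1, 1, 1, 0, 1, 3, 0], 7, [0, 1, 0, 0, 0, 0, 3, 0], [6, 2, 3, 5, 4, 7, 1, 0]),
  ([1, 0, 3, 1, 0, 3, 1, 1], 4, [0, 0, 0, 0, 0, 1, 0, 1], [3, 2, 7, 1, 0, 4, 5, 6]),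
  ([1, 1, 0, 0, 1, 3, 3, 1], 3, [0, 0, 0, 0, 0, 1, 1, 0], [3, 4, 2, 0, 1, 5, 6, 7]),
  ([0, 0, 0, 0, 3, 3, 1, 3], 1, [0, 0, 0, 0, 0, 1, 0, 1], [2, 0, 3, 1, 4, 5, 6, 7]),
  ([3, 0, 1, 1, 3, 1, 1, 0], 7, [0, 0, 0, 1, 1, 0, 0, 0], [5, 4, 3, 1, 2, 6, 7, 0]),
  ([0, 5, 0, 1, 0, 1, 3, 0], 7, [0, 1, 0, 0, 0, 0, 3, 0], [3, 7, 1, 4, 2, 5, 6, 0]),
  ([5, 0, 1, 1, 0, 1, 1, 1], 4, [0, 0, 0, 0, 0, 1, 0, 1], [7, 2, 6, 1, 0, 3, 4, 5]),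
  ([1, 2, 3, 1, 0, 1, 1, 1], 4, [0, 0, 0, 0, 0, 1, 0, 1], [3, 4, 7, 1, 0, 2, 5, 6]),
  ([0, 2, 0, 3, 0, 3, 1, 1], 4, [0, 0, 0, 0, 0, 1, 0, 1], [3, 4, 2, 5, 0, 6, 7, 1]),
  ([3, 3, 0, 0, 1, 1, 1, 1], 3, [0, 0, 0, 0, 0, 0, 0, 0], [3, 4, 2, 0, 1, 5, 6, 7]),
  ([0, 0, 3, 2, 0, 1, 3, 1], 0, [0, 0, 0, 0, 0, 0, 1, 0], [0, 3, 4, 2, 1, 5, 6, 7]),
  ([0, 0, 1, 0, 2, 1, 3, 3], 0, [0, 0, 0, 0, 0, 0, 1, 1], [0, 2, 4, 1, 3, 5, 6, 7]),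
  ([0, 0, 1, 3, 0, 5, 1, 0], 7, [0, 0, 0, 0, 0, 2, 0, 0], [4, 2, 1, 5, 3, 6, 7, 0]),
  ([1, 0, 4, 1, 2, 1, 0, 1], 6, [0, 0, 1, 0, 0, 0, 0, 1], [3, 1, 2, 4, 5, 6, 0, 7]),
  ([2, 1, 3, 0, 2, 1, 0, 1], 6, [0, 0, 1, 0, 0, 0, 0, 1], [4, 2, 1, 3, 5, 6, 0, 7]),
  ([1, 0, 0, 1, 2, 1, 0, 5], 6, [0, 0, 1, 0, 0, 0, 0, 3], [3, 1, 2, 4, 5, 6, 0, 7]),
  ([0, 2, 3, 0, 2, 1, 1, 1], 3, [0, 0, 1, 0, 0, 0, 0, 1], [2, 3, 1, 0, 4, 5, 6, 7]),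
  ([1, 0, 0, 0, 3, 1, 5, 0], 7, [0, 1, 0, 0, 0, 0, 3, 0], [3, 2, 1, 4, 5, 6, 7, 0]),
  ([1, 2, 0, 0, 3, 1, 3, 0], 7, [0, 1, 0, 0, 0, 0, 3, 0], [4, 3, 1, 5, 6, 7, 2, 0]),
  ([3, 0, 1, 1, 0, 1, 1, 3], 4, [0, 0, 0, 0, 0, 1, 0, 1], [4, 2, 5, 1, 0, 3, 6, 7]),
  ([1, 3, 0, 0, 1, 3, 1, 1], 3, [0, 0, 0, 0, 0, 2, 0, 0], [4, 5, 2, 0, 1, 3, 6, 7]),
  ([1, 2, 2, 0, 0, 1, 1, 3], 3, [0, 0, 1, 0, 0, 0, 0, 2], [3, 4, 2, 0, 1, 5, 6, 7]),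
  ([3, 1, 0, 0, 1, 1, 3, 1], 3, [0, 0, 0, 0, 0, 1, 1, 0], [4, 5, 2, 0, 1, 3, 6, 7]),
  ([1, 4, 0, 0, 3, 1, 1, 0], 7, [0, 1, 0, 0, 0, 0, 2, 0], [4, 3, 1, 5, 6, 7, 2, 0]),
  ([0, 0, 1, 3, 0, 3, 3, 0], 7, [0, 0, 0, 0, 0, 1, 1, 0], [3, 4, 1, 5, 2, 6, 7, 0]),
  ([1, 2, 2, 0, 0, 1, 3, 1], 4, [0, 1, 0, 0, 0, 0, 3, 0], [4, 3, 5, 1, 0, 6, 2, 7]),
  ([3, 1, 0, 1, 3, 1, 0, 1], 6, [0, 0, 0, 0, 1, 0, 0, 0], [4, 1, 3, 5, 2, 6, 0, 7]),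
  ([2, 0, 0, 5, 1, 1, 0, 1], 6, [0, 0, 0, 1, 1, 0, 0, 0], [4, 1, 3, 5, 2, 6, 0, 7]),
  ([1, 0, 2, 1, 2, 1, 0, 3], 6, [0, 0, 1, 0, 0, 0, 0, 2], [3, 1, 2, 4, 5, 6, 0, 7]),
  ([0, 0, 2, 0, 2, 1, 0, 5], 6, [0, 0, 1, 0, 0, 0, 0, 3], [3, 1, 4, 2, 5, 6, 0, 7]),
  ([0, 1, 0, 0, 3, 3, 0, 3], 6, [0, 0, 0, 0, 0, 1, 0, 1], [3, 1, 4, 2, 5, 6, 0, 7])]

theorem table_ok : table.all entryOk = true := by decide +kernel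

theorem entry_spec {t : List ℕ × Fin 14 × List ℤ × List ℕ} (h : entryOk t = true)
    {D : Fin 14 → ℤ} (hD : ∀ v, D v ≤ bd t.1 v) : ¬ G₀.DEff (D - Pi.single t.2.1 1) := by
  unfold entryOk at h
  rw [Bool.and_eq_true, decide_eq_true_iff, decide_eq_true_iff] at h
  obtain ⟨h1, h2⟩ := h
  intro hcon
  refine not_dEff_of_burn G₀ (fun v => D v - (Pi.single t.2.1 1 : Fin 14 → ℤ) v +
    G₀.lap (fn t.2.2.1) v) (rk t.2.2.2) t.2.1 ?_ ?_ ?_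
  · simp only [Pi.single_eq_same, lap_G₀]
    have := hD t.2.1
    linarith
  · intro v hv
    rw [cnt_G₀]
    simp only [Pi.single_eq_of_ne hv, lap_G₀]
    have := hD v
    have := h2 v hv
    linarith
  · refine hcon.of_equiv (f := fn t.2.2.1) (fun v => ?_)
    rw [Pi.sub_apply]; ring

/-- componentwise comparison of lists -/
def leL : List ℕ → List ℕ → Bool
  | [], _ => true
  | _ :: _, [] => false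
  | a :: as, b :: bs => Nat.ble a b && leL as bs

/-- all effective divisors of degree 5 on the first block are below a bound of the table -/
def coverOk : Bool :=
  (List.range 6).all fun a => (List.range (6 - a)).all fun b =>
  (List.range (6 - a - b)).all fun c => (List.range (6 - a - b - c)).all fun d =>
  (List.range (6 - a - b - c - d)).all fun e => (List.range (6 - a - b - c - d - e)).all fun f =>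
  (List.range (6 - a - b - c - d - e - f)).all fun g =>
    table.any fun t => leL [a, b, c, d, e, f, g, 5 - a - b - c - d - e - f - g] t.1

theorem coverOk_true : coverOk = true := by decide +kernel

end Pool.Agent.MP7c139f.MultiGraph
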