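import Pool.Agent.MP7c139f.Slopes

set_option autoImplicit false

namespace Pool.Agent.MP7c139f.MultiGraph

variable {V E : Type}

/-! ### Points on edges -/

/-- The point at distance `t` from `src e` on the closed edge `e`. -/
noncomputable def pos (G : MultiGraph V E) (e : E) (t : ℝ) : Pt V E :=
  if h : t ∈ Set.Ioo (0 : ℝ) 1 then Sum.inr (e, ⟨t, h⟩)
  else if t ≤ 0 then Sum.inl (G.src e) else Sum.inl (G.tgt e)

theorem edgeFn_eq (G : MultiGraph V E) (f : Pt V E → ℝ) (e : E) (t : ℝ) :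
    G.edgeFn f e t = f (G.pos e t) := by
  unfold edgeFn pos
  split_ifs <;> rfl

theorem pos_zero (G : MultiGraph V E) (e : E) : G.pos e 0 = Sum.inl (G.src e) := by
  unfold pos; simp

theorem pos_one (G : MultiGraph V E) (e : E) : G.pos e 1 = Sum.inl (G.tgt e) := by
  unfold pos
  rw [dif_neg (by simp), if_neg (by norm_num)]

theorem pos_mid (G : MultiGraph V E) (e : E) {t : ℝ} (h : t ∈ Set.Ioo (0 : ℝ) 1) :
    G.pos e t = Sum.inr (e, ⟨t, h⟩) := by
  unfold pos; rw [dif_pos h]

theorem edgeFn_zero (G : MultiGraph V E) (f : Pt V E → ℝ) (e : E) :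
    G.edgeFn f e 0 = f (Sum.inl (G.src e)) := by rw [edgeFn_eq, pos_zero]

theorem edgeFn_one (G : MultiGraph V E) (f : Pt V E → ℝ) (e : E) :
    G.edgeFn f e 1 = f (Sum.inl (G.tgt e)) := by rw [edgeFn_eq, pos_one]

theorem edgeFn_add (G : MultiGraph V E) (f g : Pt V E → ℝ) (e : E) :
    G.edgeFn (fun x => f x + g x) e = fun t => G.edgeFn f e t + G.edgeFn g e t := by
  funext t; simp only [edgeFn_eq]

theorem edgeFn_neg (G : MultiGraph V E) (f : Pt V E → ℝ) (e : E) :
    G.edgeFn (fun x => - f x) e = fun t => - G.edgeFn f e t := by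
  funext t; simp only [edgeFn_eq]

theorem edgeFn_max (G : MultiGraph V E) (f : Pt V E → ℝ) (c : ℝ) (e : E) :
    G.edgeFn (fun x => max (f x) c) e = fun t => max (G.edgeFn f e t) c := by
  funext t; simp only [edgeFn_eq]

theorem IsRational.add {G : MultiGraph V E} {f g : Pt V E → ℝ} (hf : G.IsRational f)
    (hg : G.IsRational g) : G.IsRational (fun x => f x + g x) := by
  intro e; rw [edgeFn_add]; exact (hf e).add (hg e)

theorem IsRational.neg {G : MultiGraph V E} {f : Pt V E → ℝ} (hf : G.IsRational f) :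
    G.IsRational (fun x => - f x) := by
  intro e; rw [edgeFn_neg]; exact (hf e).neg

theorem IsRational.max_const {G : MultiGraph V E} {f : Pt V E → ℝ} (hf : G.IsRational f) (c : ℝ) :
    G.IsRational (fun x => max (f x) c) := by
  intro e; rw [edgeFn_max]; exact (hf e).max_const c

theorem isRational_zero (G : MultiGraph V E) : G.IsRational (fun _ => 0) := by
  intro e
  refine .piece zero_lt_one 0 (fun t _ _ => ?_)
  simp [edgeFn_eq]

section slopes

theorem rs_add {φ ψ : ℝ → ℝ} (hφ : IntPL φ 0 1) (hψ : IntPL ψ 0 1) {t : ℝ} (h0 : 0 ≤ t)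
    (h1 : t < 1) : rightSlope (fun s => φ s + ψ s) t = rightSlope φ t + rightSlope ψ t :=
  rightSlope_eq ((hφ.hasRight h0 h1).add (hψ.hasRight h0 h1))

theorem ls_add {φ ψ : ℝ → ℝ} (hφ : IntPL φ 0 1) (hψ : IntPL ψ 0 1) {t : ℝ} (h0 : 0 < t)
    (h1 : t ≤ 1) : leftSlope (fun s => φ s + ψ s) t = leftSlope φ t + leftSlope ψ t :=
  leftSlope_eq ((hφ.hasLeft h0 h1).add (hψ.hasLeft h0 h1))

theorem rs_neg {φ : ℝ → ℝ} (hφ : IntPL φ 0 1) {t : ℝ} (h0 : 0 ≤ t)
    (h1 : t < 1) : rightSlope (fun s => - φ s) t = - rightSlope φ t :=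
  rightSlope_eq (hφ.hasRight h0 h1).neg

theorem ls_neg {φ : ℝ → ℝ} (hφ : IntPL φ 0 1) {t : ℝ} (h0 : 0 < t)
    (h1 : t ≤ 1) : leftSlope (fun s => - φ s) t = - leftSlope φ t :=
  leftSlope_eq (hφ.hasLeft h0 h1).neg

theorem rs_max {φ : ℝ → ℝ} (hφ : IntPL φ 0 1) (c : ℝ) {t : ℝ} (h0 : 0 ≤ t)
    (h1 : t < 1) : rightSlope (fun s => max (φ s) c) t = truncSlope (φ t) c (rightSlope φ t) :=
  rightSlope_eq ((hφ.hasRight h0 h1).max_const c)

theorem ls_max {φ : ℝ → ℝ} (hφ : IntPL φ 0 1) (c : ℝ) {t : ℝ} (h0 : 0 < t)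
    (h1 : t ≤ 1) : leftSlope (fun s => max (φ s) c) t = truncSlope (φ t) c (leftSlope φ t) :=
  leftSlope_eq ((hφ.hasLeft h0 h1).max_const c)

end slopes

variable [Fintype E] [DecidableEq V]

theorem div_inl (G : MultiGraph V E) (f : Pt V E → ℝ) (v : V) :
    G.div f (Sum.inl v) = ∑ e, ((if G.src e = v then rightSlope (G.edgeFn f e) 0 else 0) +
      (if G.tgt e = v then leftSlope (G.edgeFn f e) 1 else 0)) := rfl

theorem div_inr (G : MultiGraph V E) (f : Pt V E → ℝ) (e : E) (t : Set.Ioo (0 : ℝ) 1) :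
    G.div f (Sum.inr (e, t)) =
      rightSlope (G.edgeFn f e) t + leftSlope (G.edgeFn f e) t := rfl

theorem div_add {G : MultiGraph V E} {f g : Pt V E → ℝ} (hf : G.IsRational f)
    (hg : G.IsRational g) (x : Pt V E) :
    G.div (fun x => f x + g x) x = G.div f x + G.div g x := by
  rcases x with v | ⟨e, t⟩
  · rw [div_inl, div_inl, div_inl, ← Finset.sum_add_distrib]
    refine Finset.sum_congr rfl (fun e _ => ?_)
    rw [edgeFn_add, rs_add (hf e) (hg e) le_rfl zero_lt_one,
      ls_add (hf e) (hg e) zero_lt_one le_rfl]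
    split_ifs <;> ring
  · rw [div_inr, div_inr, div_inr, edgeFn_add, rs_add (hf e) (hg e) t.2.1.le t.2.2,
      ls_add (hf e) (hg e) t.2.1 t.2.2.le]
    ring

theorem div_neg {G : MultiGraph V E} {f : Pt V E → ℝ} (hf : G.IsRational f) (x : Pt V E) :
    G.div (fun x => - f x) x = - G.div f x := by
  rcases x with v | ⟨e, t⟩
  · rw [div_inl, div_inl, ← Finset.sum_neg_distrib]
    refine Finset.sum_congr rfl (fun e _ => ?_)
    rw [edgeFn_neg, rs_neg (hf e) le_rfl zero_lt_one, ls_neg (hf e) zero_lt_one le_rfl]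
    split_ifs <;> ring
  · rw [div_inr, div_inr, edgeFn_neg, rs_neg (hf e) t.2.1.le t.2.2, ls_neg (hf e) t.2.1 t.2.2.le]
    ring

theorem div_zero (G : MultiGraph V E) (x : Pt V E) : G.div (fun _ => 0) x = 0 := by
  have h := div_add (isRational_zero G) (isRational_zero G) x
  simp only [add_zero] at h
  linarith

/-- div of a truncation in terms of truncated slopes -/
theorem div_max_inl {G : MultiGraph V E} {f : Pt V E → ℝ} (hf : G.IsRational f) (c : ℝ) (v : V) :
    G.div (fun x => max (f x) c) (Sum.inl v) =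
      ∑ e, ((if G.src e = v then truncSlope (f (Sum.inl v)) c (rightSlope (G.edgeFn f e) 0)
        else 0) +
      (if G.tgt e = v then truncSlope (f (Sum.inl v)) c (leftSlope (G.edgeFn f e) 1) else 0)) := by
  rw [div_inl]
  refine Finset.sum_congr rfl (fun e _ => ?_)
  rw [edgeFn_max, rs_max (hf e) c le_rfl zero_lt_one, ls_max (hf e) c zero_lt_one le_rfl,
    edgeFn_zero, edgeFn_one]
  congr 1
  · by_cases h : G.src e = v
    · rw [if_pos h, if_pos h, h]
    · rw [if_neg h, if_neg h]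
  · by_cases h : G.tgt e = v
    · rw [if_pos h, if_pos h, h]
    · rw [if_neg h, if_neg h]

theorem div_max_inr {G : MultiGraph V E} {f : Pt V E → ℝ} (hf : G.IsRational f) (c : ℝ) (e : E)
    (t : Set.Ioo (0 : ℝ) 1) :
    G.div (fun x => max (f x) c) (Sum.inr (e, t)) =
      truncSlope (f (Sum.inr (e, t))) c (rightSlope (G.edgeFn f e) t) +
      truncSlope (f (Sum.inr (e, t))) c (leftSlope (G.edgeFn f e) t) := by
  rw [div_inr, edgeFn_max, rs_max (hf e) c t.2.1.le t.2.2, ls_max (hf e) c t.2.1 t.2.2.le,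
    edgeFn_eq, pos_mid G e t.2]

theorem trunc_gt {x c : ℝ} {m : ℤ} (h : c < x) : truncSlope x c m = m := by
  unfold truncSlope; rw [if_pos h]

theorem trunc_lt {x c : ℝ} {m : ℤ} (h : x < c) : truncSlope x c m = 0 := by
  unfold truncSlope; rw [if_neg (not_lt.2 h.le), if_pos h]

theorem trunc_eq {c : ℝ} {m : ℤ} : truncSlope c c m = max m 0 := by
  unfold truncSlope; rw [if_neg (lt_irrefl _), if_neg (lt_irrefl _)]

theorem div_max_gt {G : MultiGraph V E} {f : Pt V E → ℝ} (hf : G.IsRational f) {c : ℝ}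
    {x : Pt V E} (h : c < f x) : G.div (fun x => max (f x) c) x = G.div f x := by
  rcases x with v | ⟨e, t⟩
  · rw [div_max_inl hf, div_inl]
    simp only [trunc_gt h]
  · rw [div_max_inr hf, div_inr, trunc_gt h, trunc_gt h]

theorem div_max_lt {G : MultiGraph V E} {f : Pt V E → ℝ} (hf : G.IsRational f) {c : ℝ}
    {x : Pt V E} (h : f x < c) : G.div (fun x => max (f x) c) x = 0 := by
  rcases x with v | ⟨e, t⟩
  · rw [div_max_inl hf]
    simp only [trunc_lt h]
    simp
  · rw [div_max_inr hf, trunc_lt h, trunc_lt h]; rfl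

theorem div_max_nonneg {G : MultiGraph V E} {f : Pt V E → ℝ} (hf : G.IsRational f) {c : ℝ}
    {x : Pt V E} (h : f x = c) : 0 ≤ G.div (fun x => max (f x) c) x := by
  subst h
  rcases x with v | ⟨e, t⟩
  · rw [div_max_inl hf]
    refine Finset.sum_nonneg (fun e _ => ?_)
    rw [trunc_eq, trunc_eq]
    refine add_nonneg ?_ ?_
    · split_ifs
      · exact le_max_right _ _
      · exact le_rfl
    · split_ifs
      · exact le_max_right _ _
      · exact le_rfl
  · rw [div_max_inr hf, trunc_eq, trunc_eq]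
    positivity

theorem div_max_ge {G : MultiGraph V E} {f : Pt V E → ℝ} (hf : G.IsRational f) {c : ℝ}
    {x : Pt V E} (h : f x = c) : G.div f x ≤ G.div (fun x => max (f x) c) x := by
  subst h
  rcases x with v | ⟨e, t⟩
  · rw [div_max_inl hf, div_inl]
    refine Finset.sum_le_sum (fun e _ => ?_)
    rw [trunc_eq, trunc_eq]
    split_ifs
    · exact add_le_add (le_max_left _ _) (le_max_left _ _)
    · exact add_le_add (le_max_left _ _) le_rfl
    · exact add_le_add le_rfl (le_max_left _ _)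
    · exact le_rfl
  · rw [div_max_inr hf, div_inr, trunc_eq, trunc_eq]
    exact add_le_add (le_max_left _ _) (le_max_left _ _)

theorem div_max_pos {G : MultiGraph V E} {f : Pt V E → ℝ} (hf : G.IsRational f) {c : ℝ}
    {e : E} {t : Set.Ioo (0 : ℝ) 1} (h : f (Sum.inr (e, t)) = c)
    (hs : 0 < rightSlope (G.edgeFn f e) t ∨ 0 < leftSlope (G.edgeFn f e) t) :
    0 < G.div (fun x => max (f x) c) (Sum.inr (e, t)) := by
  subst h
  rw [div_max_inr hf, trunc_eq, trunc_eq]
  rcases hs with hs | hs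
  · exact add_pos_of_pos_of_nonneg (lt_max_of_lt_left hs) (le_max_right _ _)
  · exact add_pos_of_nonneg_of_pos (le_max_right _ _) (lt_max_of_lt_left hs)

/-- The level lemma. -/
theorem level {G : MultiGraph V E} {f : Pt V E → ℝ} (hf : G.IsRational f) (c : ℝ)
    {D : Pt V E → ℤ} (h1 : ∀ x, 0 ≤ D x) (h2 : ∀ x, 0 ≤ D x + G.div f x) (x : Pt V E) :
    0 ≤ D x + G.div (fun x => max (f x) c) x := by
  rcases lt_trichotomy (f x) c with h | h | h
  · rw [div_max_lt hf h]; simpa using h1 x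
  · exact add_nonneg (h1 x) (div_max_nonneg hf h)
  · rw [div_max_gt hf h]; exact h2 x

end Pool.Agent.MP7c139f.MultiGraph
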