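import Pool.Agent.MP7c139f.Closure

set_option autoImplicit false
set_option linter.unusedSectionVars false

namespace Pool.Agent.MP7c139f.MultiGraph

variable {V E : Type} [Fintype V] [Fintype E] [DecidableEq V]

/-! ### Firing on the graph with every edge subdivided once -/

/-- the parameter `1/2` -/
noncomputable def half : Set.Ioo (0 : ℝ) 1 := ⟨1 / 2, by norm_num, by norm_num⟩

/-- The piecewise linear function with value `F v / 2` at the vertex `v` and `M e / 2` at the
midpoint of `e`, linear on the half edges. -/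
noncomputable def interp (G : MultiGraph V E) (F : V → ℤ) (M : E → ℤ) : Pt V E → ℝ
  | Sum.inl v => F v / 2
  | Sum.inr (e, t) =>
    if (t : ℝ) ≤ 1 / 2 then F (G.src e) / 2 + (M e - F (G.src e)) * t
    else F (G.tgt e) / 2 + (M e - F (G.tgt e)) * (1 - t)

theorem interp_inr (G : MultiGraph V E) (F : V → ℤ) (M : E → ℤ) (e : E)
    (t : Set.Ioo (0 : ℝ) 1) : G.interp F M (Sum.inr (e, t)) =
      if (t : ℝ) ≤ 1 / 2 then (F (G.src e) : ℝ) / 2 + (M e - F (G.src e)) * (t : ℝ)
      else (F (G.tgt e) : ℝ) / 2 + (M e - F (G.tgt e)) * (1 - (t : ℝ)) := rfl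

theorem interp_inl (G : MultiGraph V E) (F : V → ℤ) (M : E → ℤ) (v : V) :
    G.interp F M (Sum.inl v) = F v / 2 := rfl

theorem edgeFn_interp_low (G : MultiGraph V E) (F : V → ℤ) (M : E → ℤ) (e : E) {t : ℝ}
    (h0 : 0 ≤ t) (h1 : t ≤ 1 / 2) :
    G.edgeFn (G.interp F M) e t = F (G.src e) / 2 + (M e - F (G.src e)) * t := by
  rw [edgeFn_eq]
  rcases eq_or_lt_of_le h0 with h0 | h0
  · subst h0
    rw [pos_zero, interp_inl]; simp
  · have hm : t ∈ Set.Ioo (0 : ℝ) 1 := ⟨h0, by linarith⟩
    rw [pos_mid G e hm, interp_inr, if_pos h1]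

theorem edgeFn_interp_high (G : MultiGraph V E) (F : V → ℤ) (M : E → ℤ) (e : E) {t : ℝ}
    (h0 : 1 / 2 ≤ t) (h1 : t ≤ 1) :
    G.edgeFn (G.interp F M) e t = F (G.tgt e) / 2 + (M e - F (G.tgt e)) * (1 - t) := by
  rcases eq_or_lt_of_le h0 with h0 | h0
  · subst h0
    rw [edgeFn_interp_low G F M e (by norm_num) le_rfl]
    ring
  · rw [edgeFn_eq]
    rcases eq_or_lt_of_le h1 with h1 | h1
    · subst h1
      rw [pos_one, interp_inl]; simp
    · have hm : t ∈ Set.Ioo (0 : ℝ) 1 := ⟨by linarith, h1⟩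
      rw [pos_mid G e hm, interp_inr, if_neg (not_le.2 h0)]

theorem isRational_interp (G : MultiGraph V E) (F : V → ℤ) (M : E → ℤ) :
    G.IsRational (G.interp F M) := by
  intro e
  refine .glue (b := 1 / 2) (.piece (by norm_num) (M e - F (G.src e)) ?_)
    (.piece (by norm_num) (F (G.tgt e) - M e) ?_)
  · intro t h1 h2
    rw [edgeFn_interp_low G F M e h1 h2, edgeFn_interp_low G F M e le_rfl (by norm_num)]
    push_cast; ring
  · intro t h1 h2
    rw [edgeFn_interp_high G F M e h1 h2, edgeFn_interp_high G F M e le_rfl (by norm_num)]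
    push_cast; ring

theorem interp_right (G : MultiGraph V E) (F : V → ℤ) (M : E → ℤ) (e : E) {t : ℝ}
    (h0 : 0 ≤ t) (h1 : t < 1) :
    rightSlope (G.edgeFn (G.interp F M) e) t =
      if t < 1 / 2 then M e - F (G.src e) else F (G.tgt e) - M e := by
  apply rightSlope_eq
  split_ifs with c1
  · refine ⟨1 / 2 - t, by linarith, fun s hs1 hs2 => ?_⟩
    rw [edgeFn_interp_low G F M e (by linarith) (by linarith), edgeFn_interp_low G F M e h0 c1.le]
    push_cast; ring
  · refine ⟨1 - t, by linarith, fun s hs1 hs2 => ?_⟩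
    rw [edgeFn_interp_high G F M e (by linarith) (by linarith),
      edgeFn_interp_high G F M e (by linarith) h1.le]
    push_cast; ring

theorem interp_left (G : MultiGraph V E) (F : V → ℤ) (M : E → ℤ) (e : E) {t : ℝ}
    (h0 : 0 < t) (h1 : t ≤ 1) :
    leftSlope (G.edgeFn (G.interp F M) e) t =
      if t ≤ 1 / 2 then F (G.src e) - M e else M e - F (G.tgt e) := by
  apply leftSlope_eq
  split_ifs with c1
  · refine ⟨t, by linarith, fun s hs1 hs2 => ?_⟩
    rw [edgeFn_interp_low G F M e (by linarith) (by linarith), edgeFn_interp_low G F M e h0.le c1]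
    push_cast; ring
  · refine ⟨t - 1 / 2, by linarith, fun s hs1 hs2 => ?_⟩
    rw [edgeFn_interp_high G F M e (by linarith) (by linarith),
      edgeFn_interp_high G F M e (by linarith) h1]
    push_cast; ring

theorem div_interp_inl (G : MultiGraph V E) (F : V → ℤ) (M : E → ℤ) (v : V) :
    G.div (G.interp F M) (Sum.inl v) =
      ∑ e, ((if G.src e = v then M e - F v else 0) + (if G.tgt e = v then M e - F v else 0)) := by
  rw [div_inl]
  refine Finset.sum_congr rfl (fun e _ => ?_)
  rw [interp_right G F M e le_rfl zero_lt_one, interp_left G F M e zero_lt_one le_rfl,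
    if_pos (by norm_num : (0 : ℝ) < 1 / 2), if_neg (by norm_num : ¬ (1 : ℝ) ≤ 1 / 2)]
  congr 1
  · by_cases h : G.src e = v
    · rw [if_pos h, if_pos h, h]
    · rw [if_neg h, if_neg h]
  · by_cases h : G.tgt e = v
    · rw [if_pos h, if_pos h, h]
    · rw [if_neg h, if_neg h]

theorem div_interp_half (G : MultiGraph V E) (F : V → ℤ) (M : E → ℤ) (e : E) :
    G.div (G.interp F M) (Sum.inr (e, half)) = F (G.src e) + F (G.tgt e) - 2 * M e := by
  rw [div_inr, interp_right G F M e half.2.1.le half.2.2, interp_left G F M e half.2.1 half.2.2.le]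
  have : (half : ℝ) = 1 / 2 := rfl
  rw [this, if_neg (lt_irrefl _), if_pos le_rfl]
  ring

theorem div_interp_other (G : MultiGraph V E) (F : V → ℤ) (M : E → ℤ) (e : E)
    {t : Set.Ioo (0 : ℝ) 1} (ht : t ≠ half) :
    G.div (G.interp F M) (Sum.inr (e, t)) = 0 := by
  rw [div_inr, interp_right G F M e t.2.1.le t.2.2, interp_left G F M e t.2.1 t.2.2.le]
  have h : (t : ℝ) ≠ 1 / 2 := fun h => ht (Subtype.ext h)
  rcases lt_or_gt_of_ne h with h | h
  · rw [if_pos h, if_pos h.le]; ring
  · rw [if_neg (not_lt.2 h.le), if_neg (not_le.2 h)]; ring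

/-- Certificates on the once subdivided graph. -/
theorem mEff_of_interp (G : MultiGraph V E) {D : Pt V E →₀ ℤ} (F : V → ℤ) (M : E → ℤ)
    (hV : ∀ v, 0 ≤ D (Sum.inl v) +
      ∑ e, ((if G.src e = v then M e - F v else 0) + (if G.tgt e = v then M e - F v else 0)))
    (hM : ∀ e, 0 ≤ D (Sum.inr (e, half)) + (F (G.src e) + F (G.tgt e) - 2 * M e))
    (hO : ∀ e t, t ≠ half → 0 ≤ D (Sum.inr (e, t))) : G.MEff D := by
  refine mEff_of_div (isRational_interp G F M) (fun x => ?_)
  rcases x with v | ⟨e, t⟩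
  · rw [div_interp_inl]; exact hV v
  · by_cases ht : t = half
    · subst ht
      rw [div_interp_half]; exact hM e
    · rw [div_interp_other G F M e ht, add_zero]; exact hO e t ht

/-! ### Divisors of the graph as divisors of the metric graph -/

/-- a divisor on the graph as a divisor on the metric graph -/
noncomputable def emb (D : V → ℤ) : Pt V E →₀ ℤ := ∑ v, Finsupp.single (Sum.inl v) (D v)

theorem emb_inl (D : V → ℤ) (v : V) : (emb D : Pt V E →₀ ℤ) (Sum.inl v) = D v := by
  classical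
  unfold emb
  rw [Finsupp.finsetSum_apply, Finset.sum_eq_single v]
  · rw [Finsupp.single_eq_same]
  · intro w _ hw
    rw [Finsupp.single_eq_of_ne]
    intro h
    exact hw (Sum.inl_injective h).symm
  · intro h
    exact absurd (Finset.mem_univ v) h

theorem emb_inr (D : V → ℤ) (y : E × Set.Ioo (0 : ℝ) 1) :
    (emb D : Pt V E →₀ ℤ) (Sum.inr y) = 0 := by
  classical
  unfold emb
  rw [Finsupp.finsetSum_apply]
  refine Finset.sum_eq_zero (fun w _ => ?_)
  rw [Finsupp.single_eq_of_ne]
  intro h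
  exact absurd h Sum.inr_ne_inl

theorem mdeg_emb (D : V → ℤ) : mdeg (emb D : Pt V E →₀ ℤ) = ∑ v, D v := by
  classical
  unfold emb
  have : ∀ s : Finset V, mdeg (∑ v ∈ s, Finsupp.single (Sum.inl v) (D v) : Pt V E →₀ ℤ) =
      ∑ v ∈ s, D v := by
    intro s
    induction s using Finset.induction_on with
    | empty => simp [mdeg]
    | insert a s ha ih => rw [Finset.sum_insert ha, Finset.sum_insert ha, mdeg_add, ih, mdeg_single]
  exact this Finset.univ

theorem emb_sub (D D' : V → ℤ) : (emb (D - D') : Pt V E →₀ ℤ) = emb D - emb D' := by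
  ext x
  rcases x with v | y
  · rw [Finsupp.sub_apply, emb_inl, emb_inl, emb_inl]; rfl
  · rw [Finsupp.sub_apply, emb_inr, emb_inr, emb_inr]; rfl

theorem emb_single (v : V) (n : ℤ) :
    (emb (Pi.single v n) : Pt V E →₀ ℤ) = Finsupp.single (Sum.inl v) n := by
  classical
  ext x
  rcases x with w | y
  · rw [emb_inl]
    by_cases h : w = v
    · subst h; rw [Pi.single_eq_same, Finsupp.single_eq_same]
    · rw [Pi.single_eq_of_ne h, Finsupp.single_eq_of_ne]
      intro h'
      exact h (Sum.inl_injective h')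
  · rw [emb_inr, Finsupp.single_eq_of_ne]
    intro h'
    exact absurd h' Sum.inr_ne_inl

/-- `D` is equivalent to an effective divisor on the graph. -/
def DEff (G : MultiGraph V E) (D : V → ℤ) : Prop :=
  ∃ D' : V → ℤ, (∀ v, 0 ≤ D' v) ∧ G.Equiv D D'

theorem lap_neg (G : MultiGraph V E) (f : V → ℤ) (v : V) : G.lap (-f) v = - G.lap f v := by
  unfold lap
  rw [← Finset.sum_neg_distrib]
  refine Finset.sum_congr rfl (fun e _ => ?_)
  simp only [Pi.neg_apply]
  split_ifs <;> ring

theorem lap_add (G : MultiGraph V E) (f g : V → ℤ) (v : V) :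
    G.lap (f + g) v = G.lap f v + G.lap g v := by
  unfold lap
  rw [← Finset.sum_add_distrib]
  refine Finset.sum_congr rfl (fun e _ => ?_)
  simp only [Pi.add_apply]
  split_ifs <;> ring

theorem dEff_of_lap {G : MultiGraph V E} {D : V → ℤ} (f : V → ℤ)
    (h : ∀ v, 0 ≤ D v + G.lap f v) : G.DEff D := by
  refine ⟨fun v => D v + G.lap f v, h, -f, fun v => ?_⟩
  rw [lap_neg]; ring

theorem DEff.exists_lap {G : MultiGraph V E} {D : V → ℤ} (h : G.DEff D) :
    ∃ f : V → ℤ, ∀ v, 0 ≤ D v + G.lap f v := by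
  obtain ⟨D', hD', f, hf⟩ := h
  refine ⟨-f, fun v => ?_⟩
  rw [lap_neg, ← hf v]
  have := hD' v
  linarith

theorem MEff_emb {G : MultiGraph V E} {D : V → ℤ} (h : G.DEff D) :
    G.MEff (emb D : Pt V E →₀ ℤ) := by
  obtain ⟨f, hf⟩ := h.exists_lap
  refine mEff_of_interp G (fun v => 2 * f v) (fun e => f (G.src e) + f (G.tgt e)) ?_ ?_ ?_
  · intro v
    rw [emb_inl]
    have : ∑ e, ((if G.src e = v then f (G.src e) + f (G.tgt e) - 2 * f v else 0) +
        (if G.tgt e = v then f (G.src e) + f (G.tgt e) - 2 * f v else 0)) = G.lap f v := by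
      unfold lap
      refine Finset.sum_congr rfl (fun e _ => ?_)
      congr 1
      · by_cases h : G.src e = v
        · rw [if_pos h, if_pos h, h]; ring
        · rw [if_neg h, if_neg h]
      · by_cases h : G.tgt e = v
        · rw [if_pos h, if_pos h, h]; ring
        · rw [if_neg h, if_neg h]
    rw [this]
    exact hf v
  · intro e
    rw [emb_inr]; ring_nf; exact le_rfl
  · intro e t _
    rw [emb_inr]

theorem DEff.add {G : MultiGraph V E} {D D' : V → ℤ} (h : G.DEff D) (h' : G.DEff D') :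
    G.DEff (D + D') := by
  obtain ⟨f, hf⟩ := h.exists_lap
  obtain ⟨g, hg⟩ := h'.exists_lap
  refine dEff_of_lap (f + g) (fun v => ?_)
  rw [lap_add, Pi.add_apply]
  have := hf v
  have := hg v
  linarith

theorem MEff.add' {G : MultiGraph V E} {D D' : Pt V E →₀ ℤ} (h : G.MEff D) (h' : G.MEff D') :
    G.MEff (D + D') := by
  obtain ⟨A, hA, hAe⟩ := h
  obtain ⟨B, hB, hBe⟩ := h'
  refine ⟨A + B, fun x => ?_, (hAe.add_right D').trans ?_⟩
  · rw [Finsupp.add_apply]; exact add_nonneg (hA x) (hB x)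
  · have := hBe.add_right A
    rw [add_comm D' A, add_comm B A] at this
    exact this

end Pool.Agent.MP7c139f.MultiGraph
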