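import Pool.Agent.MP7c139f.Interp

set_option autoImplicit false
set_option linter.unusedSectionVars false

namespace Pool.Agent.MP7c139f.MultiGraph

variable {V E : Type} [Fintype V] [Fintype E] [DecidableEq V]

theorem card_le_mdeg {D : Pt V E →₀ ℤ} (hD : ∀ x, 0 ≤ D x) (T : Finset (Pt V E))
    (hT : ∀ x ∈ T, 1 ≤ D x) : (T.card : ℤ) ≤ mdeg D := by
  classical
  have hsub : T ⊆ D.support := by
    intro x hx
    rw [Finsupp.mem_support_iff]
    have := hT x hx
    omega
  calc (T.card : ℤ) = ∑ _x ∈ T, (1 : ℤ) := by simp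
    _ ≤ ∑ x ∈ T, D x := Finset.sum_le_sum hT
    _ ≤ ∑ x ∈ D.support, D x := Finset.sum_le_sum_of_subset_of_nonneg hsub (fun x _ _ => hD x)
    _ = mdeg D := rfl

theorem sum_le_mdeg {D : Pt V E →₀ ℤ} (hD : ∀ x, 0 ≤ D x) (T : Finset (Pt V E)) :
    ∑ x ∈ T, D x ≤ mdeg D := by
  classical
  rw [mdeg_eq_sum (S := T ∪ D.support) (fun x hx => by
    rw [Finset.mem_union, not_or] at hx
    exact Finsupp.notMem_support_iff.1 hx.2)]
  exact Finset.sum_le_sum_of_subset_of_nonneg Finset.subset_union_left (fun x _ _ => hD x)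

/-- The edges with exactly one end in `S`. -/
def cut (G : MultiGraph V E) (S : Finset V) : Finset E :=
  Finset.univ.filter fun e => (G.src e ∈ S ∧ G.tgt e ∉ S) ∨ (G.src e ∉ S ∧ G.tgt e ∈ S)

theorem no_jump {G : MultiGraph V E} {A : Finset V} {k : ℕ}
    (hcut : ∀ S : Finset V, (∃ a ∈ A, a ∈ S) → (∃ a ∈ A, a ∉ S) → k < (G.cut S).card)
    {D : Pt V E →₀ ℤ} {f : Pt V E → ℝ} (hf : G.IsRational f) (h1 : ∀ x, 0 ≤ D x)
    (h2 : ∀ x, 0 ≤ D x + G.div f x) (hdeg : mdeg D ≤ k) {u w : V} (hu : u ∈ A) (hw : w ∈ A) :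
    ¬ f (Sum.inl u) < f (Sum.inl w) := by
  classical
  intro hlt
  obtain ⟨c, hc, hcV⟩ := (Set.Ioo_infinite hlt).exists_notMem_finset
    (Finset.univ.image fun v : V => f (Sum.inl v))
  have hcne : ∀ v, f (Sum.inl v) ≠ c := by
    intro v hv
    apply hcV
    rw [Finset.mem_image]
    exact ⟨v, Finset.mem_univ v, hv⟩
  set S : Finset V := Finset.univ.filter fun v => c < f (Sum.inl v) with hS
  have hmem : ∀ v, v ∈ S ↔ c < f (Sum.inl v) := fun v => by simp [hS]
  have hcard := hcut S ⟨w, hw, (hmem w).2 hc.2⟩ ⟨u, hu, fun h => lt_asymm ((hmem u).1 h) hc.1⟩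
  set D' : Pt V E →₀ ℤ := D + G.divF _ (hf.max_const c) with hD'
  have hD'a : ∀ x, D' x = D x + G.div (fun x => max (f x) c) x := fun x => by
    rw [hD', Finsupp.add_apply, divF_apply]
  have hD'0 : ∀ x, 0 ≤ D' x := fun x => by rw [hD'a]; exact level hf c h1 h2 x
  have hpt : ∀ e, ∃ t : Set.Ioo (0 : ℝ) 1, e ∈ G.cut S → 1 ≤ D' (Sum.inr (e, t)) := by
    intro e
    by_cases he : e ∈ G.cut S
    · have he' := he
      unfold cut at he'
      rw [Finset.mem_filter] at he'
      rcases he'.2 with ⟨ha, hb⟩ | ⟨ha, hb⟩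
      · -- downward crossing
        rw [hmem] at ha hb
        have hb' : G.edgeFn f e 1 ≤ c := by rw [edgeFn_one]; exact not_lt.1 hb
        have ha' : c < G.edgeFn f e 0 := by rw [edgeFn_zero]; exact ha
        obtain ⟨t, t0, t1, tc, ts⟩ := (hf e).cross_down hb' ha'
        have ht1 : t ≠ 1 := by
          intro h
          rw [h, edgeFn_one] at tc
          exact hcne _ tc
        have htm : t ∈ Set.Ioo (0 : ℝ) 1 := ⟨t0, lt_of_le_of_ne t1 ht1⟩
        refine ⟨⟨t, htm⟩, fun _ => ?_⟩
        rw [edgeFn_eq, pos_mid G e htm] at tc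
        have := div_max_pos hf (c := c) (e := e) (t := ⟨t, htm⟩) tc (Or.inr ts)
        have := h1 (Sum.inr (e, ⟨t, htm⟩))
        rw [hD'a]
        omega
      · rw [hmem] at ha hb
        have ha' : G.edgeFn f e 0 ≤ c := by rw [edgeFn_zero]; exact not_lt.1 ha
        have hb' : c < G.edgeFn f e 1 := by rw [edgeFn_one]; exact hb
        obtain ⟨t, t0, t1, tc, ts⟩ := (hf e).cross_up ha' hb'
        have ht0 : t ≠ 0 := by
          intro h
          rw [h, edgeFn_zero] at tc
          exact hcne _ tc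
        have htm : t ∈ Set.Ioo (0 : ℝ) 1 := ⟨lt_of_le_of_ne t0 (Ne.symm ht0), t1⟩
        refine ⟨⟨t, htm⟩, fun _ => ?_⟩
        rw [edgeFn_eq, pos_mid G e htm] at tc
        have := div_max_pos hf (c := c) (e := e) (t := ⟨t, htm⟩) tc (Or.inl ts)
        have := h1 (Sum.inr (e, ⟨t, htm⟩))
        rw [hD'a]
        omega
    · exact ⟨half, fun h => absurd h he⟩
  choose t ht using hpt
  have hinj : Function.Injective fun e => (Sum.inr (e, t e) : Pt V E) := by
    intro e e' h
    have := Sum.inr_injective h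
    exact (Prod.mk.inj this).1
  have hbig := card_le_mdeg hD'0 ((G.cut S).image fun e => (Sum.inr (e, t e) : Pt V E)) (by
    intro x hx
    rw [Finset.mem_image] at hx
    obtain ⟨e, he, rfl⟩ := hx
    exact ht e he)
  rw [Finset.card_image_of_injective _ hinj] at hbig
  have hd : mdeg D' = mdeg D := by rw [hD', mdeg_add, mdeg_divF, add_zero]
  rw [hd] at hbig
  have : ((G.cut S).card : ℤ) ≤ k := hbig.trans hdeg
  omega

/-- The lower bound: if every cut separating `A` has more than `k` edges and `A` has more than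
`k` elements, then no divisor of degree at most `k` on the metric graph can cover all of `A`. -/
theorem metric_lower {G : MultiGraph V E} {A : Finset V} {k : ℕ} (hA : k < A.card)
    (hcut : ∀ S : Finset V, (∃ a ∈ A, a ∈ S) → (∃ a ∈ A, a ∉ S) → k < (G.cut S).card)
    {D : Pt V E →₀ ℤ} (hdeg : mdeg D ≤ k) :
    ∃ w ∈ A, ¬ G.MEff (D - Finsupp.single (Sum.inl w) 1) := by
  classical
  by_contra hcon
  push Not at hcon
  have hstep : ∀ j : ℕ, ∃ D' : Pt V E →₀ ℤ, (∀ x, 0 ≤ D' x) ∧ G.MEquiv D D' ∧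
      (j : ℤ) ≤ ∑ a ∈ A, D' (Sum.inl a) := by
    intro j
    induction j with
    | zero =>
      have hne : A.Nonempty := Finset.card_pos.1 (by omega)
      obtain ⟨w, hw⟩ := hne
      obtain ⟨D', hD', _, hE⟩ := (hcon w hw).exists_of_sub
      refine ⟨D', hD', hE, ?_⟩
      exact_mod_cast Finset.sum_nonneg (fun a _ => hD' (Sum.inl a))
    | succ j ih =>
      obtain ⟨D', hD', hE, hj⟩ := ih
      have hdeg' : mdeg D' ≤ k := by rw [← hE.mdeg_eq]; exact hdeg
      have hex : ∃ w ∈ A, D' (Sum.inl w) < 1 := by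
        by_contra hno
        push Not at hno
        have h1 := card_le_mdeg hD' (A.image fun a => (Sum.inl a : Pt V E)) (by
          intro x hx
          rw [Finset.mem_image] at hx
          obtain ⟨a, ha, rfl⟩ := hx
          exact hno a ha)
        rw [Finset.card_image_of_injective _ Sum.inl_injective] at h1
        have : (A.card : ℤ) ≤ k := h1.trans hdeg'
        omega
      obtain ⟨w, hw, hw0⟩ := hex
      obtain ⟨D₂, hD₂, hw2, hE₂⟩ := (hcon w hw).exists_of_sub
      obtain ⟨f, hf, hfe⟩ := hE₂.symm.trans hE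
      have hsum : ∀ x, D₂ x = D' x + G.div f x := fun x => by have := hfe x; linarith
      have h2 : ∀ x, 0 ≤ D' x + G.div f x := fun x => by rw [← hsum x]; exact hD₂ x
      have hconst : ∀ a ∈ A, f (Sum.inl a) = f (Sum.inl w) := by
        intro a ha
        exact le_antisymm (not_lt.1 (no_jump hcut hf hD' h2 hdeg' hw ha))
          (not_lt.1 (no_jump hcut hf hD' h2 hdeg' ha hw))
      set c := f (Sum.inl w) with hc
      set D₃ : Pt V E →₀ ℤ := D' + G.divF _ (hf.max_const c) with hD₃
      have hD₃a : ∀ x, D₃ x = D' x + G.div (fun x => max (f x) c) x := fun x => by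
        rw [hD₃, Finsupp.add_apply, divF_apply]
      have hD₃0 : ∀ x, 0 ≤ D₃ x := fun x => by rw [hD₃a]; exact level hf c hD' h2 x
      have hE₃ : G.MEquiv D' D₃ := by
        refine ⟨fun x => - max (f x) c, (hf.max_const c).neg, fun x => ?_⟩
        rw [div_neg (hf.max_const c), hD₃a]; ring
      refine ⟨D₃, hD₃0, hE.trans hE₃, ?_⟩
      have hle : ∀ a ∈ A, D' (Sum.inl a) + (if a = w then 1 else 0) ≤ D₃ (Sum.inl a) := by
        intro a ha
        by_cases haw : a = w
        · rw [if_pos haw, haw, hD₃a]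
          have := div_max_ge hf (c := c) (x := Sum.inl w) rfl
          have := hsum (Sum.inl w)
          have := hD' (Sum.inl w)
          omega
        · rw [if_neg haw, hD₃a]
          have := div_max_nonneg hf (c := c) (x := Sum.inl a) (hconst a ha)
          omega
      have hs := Finset.sum_le_sum hle
      rw [Finset.sum_add_distrib, Finset.sum_ite_eq' A w, if_pos hw] at hs
      push_cast
      linarith
  obtain ⟨D', hD', hE, hj⟩ := hstep (k + 1)
  have hdeg' : mdeg D' ≤ k := by rw [← hE.mdeg_eq]; exact hdeg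
  have h1 := sum_le_mdeg hD' (A.image fun a => (Sum.inl a : Pt V E))
  rw [Finset.sum_image (fun a _ b _ h => Sum.inl_injective h)] at h1
  push_cast at hj
  linarith

end Pool.Agent.MP7c139f.MultiGraph
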