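import Pool.Agent.MP7c139f.Defs

set_option autoImplicit false

namespace Pool.Agent.MP7c139f.MultiGraph

/-! ### One-variable theory -/

theorem IntPL.lt {φ : ℝ → ℝ} {a b : ℝ} (h : IntPL φ a b) : a < b := by
  induction h with
  | piece hab m h => exact hab
  | glue h₁ h₂ ih₁ ih₂ => exact ih₁.trans ih₂

theorem right_unique {φ : ℝ → ℝ} {t : ℝ} {m m' : ℤ} (h : HasRightSlope φ t m)
    (h' : HasRightSlope φ t m') : m = m' := by
  obtain ⟨ε, hε, h⟩ := h
  obtain ⟨ε', hε', h'⟩ := h'
  have hmin : 0 < min ε ε' := lt_min hε hε'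
  have e1 := h (t + min ε ε' / 2) (by linarith) (by have := min_le_left ε ε'; linarith)
  have e2 := h' (t + min ε ε' / 2) (by linarith) (by have := min_le_right ε ε'; linarith)
  have e3 : ((m : ℝ) - m') * (min ε ε' / 2) = 0 := by
    have : t + min ε ε' / 2 - t = min ε ε' / 2 := by ring
    rw [this] at e1 e2
    linarith
  rcases mul_eq_zero.1 e3 with h0 | h0
  · have : (m : ℝ) = m' := by linarith
    exact_mod_cast this
  · linarith

theorem left_unique {φ : ℝ → ℝ} {t : ℝ} {m m' : ℤ} (h : HasLeftSlope φ t m)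
    (h' : HasLeftSlope φ t m') : m = m' := by
  obtain ⟨ε, hε, h⟩ := h
  obtain ⟨ε', hε', h'⟩ := h'
  have hmin : 0 < min ε ε' := lt_min hε hε'
  have e1 := h (t - min ε ε' / 2) (by have := min_le_left ε ε'; linarith) (by linarith)
  have e2 := h' (t - min ε ε' / 2) (by have := min_le_right ε ε'; linarith) (by linarith)
  have e3 : ((m : ℝ) - m') * (min ε ε' / 2) = 0 := by
    have : t - (t - min ε ε' / 2) = min ε ε' / 2 := by ring
    rw [this] at e1 e2
    linarith
  rcases mul_eq_zero.1 e3 with h0 | h0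
  · have : (m : ℝ) = m' := by linarith
    exact_mod_cast this
  · linarith

theorem rightSlope_eq {φ : ℝ → ℝ} {t : ℝ} {m : ℤ} (h : HasRightSlope φ t m) :
    rightSlope φ t = m := by
  have hex : ∃ m, HasRightSlope φ t m := ⟨m, h⟩
  unfold rightSlope
  rw [dif_pos hex]
  exact right_unique hex.choose_spec h

theorem leftSlope_eq {φ : ℝ → ℝ} {t : ℝ} {m : ℤ} (h : HasLeftSlope φ t m) :
    leftSlope φ t = m := by
  have hex : ∃ m, HasLeftSlope φ t m := ⟨m, h⟩
  unfold leftSlope
  rw [dif_pos hex]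
  exact left_unique hex.choose_spec h

theorem IntPL.exists_right {φ : ℝ → ℝ} {a b : ℝ} (h : IntPL φ a b) :
    ∀ t, a ≤ t → t < b → ∃ m, HasRightSlope φ t m := by
  induction h with
  | @piece a b hab m h =>
    intro t h1 h2
    refine ⟨m, b - t, by linarith, fun s hs1 hs2 => ?_⟩
    rw [h s (by linarith) (by linarith), h t h1 h2.le]
    ring
  | @glue a b c h₁ h₂ ih₁ ih₂ =>
    intro t h1 h2
    by_cases hb : t < b
    · exact ih₁ t h1 hb
    · exact ih₂ t (not_lt.1 hb) h2

theorem IntPL.exists_left {φ : ℝ → ℝ} {a b : ℝ} (h : IntPL φ a b) :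
    ∀ t, a < t → t ≤ b → ∃ m, HasLeftSlope φ t m := by
  induction h with
  | @piece a b hab m h =>
    intro t h1 h2
    refine ⟨-m, t - a, by linarith, fun s hs1 hs2 => ?_⟩
    rw [h s (by linarith) (by linarith), h t h1.le h2]
    push_cast
    ring
  | @glue a b c h₁ h₂ ih₁ ih₂ =>
    intro t h1 h2
    by_cases hb : t ≤ b
    · exact ih₁ t h1 hb
    · exact ih₂ t (not_le.1 hb) h2

theorem IntPL.hasRight {φ : ℝ → ℝ} {a b : ℝ} (h : IntPL φ a b) {t : ℝ} (h1 : a ≤ t)
    (h2 : t < b) : HasRightSlope φ t (rightSlope φ t) := by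
  obtain ⟨m, hm⟩ := h.exists_right t h1 h2
  rw [rightSlope_eq hm]; exact hm

theorem IntPL.hasLeft {φ : ℝ → ℝ} {a b : ℝ} (h : IntPL φ a b) {t : ℝ} (h1 : a < t)
    (h2 : t ≤ b) : HasLeftSlope φ t (leftSlope φ t) := by
  obtain ⟨m, hm⟩ := h.exists_left t h1 h2
  rw [leftSlope_eq hm]; exact hm

/-- Telescoping of the slopes of a piecewise linear function. -/
theorem IntPL.telescope {φ : ℝ → ℝ} {a b : ℝ} (h : IntPL φ a b) :
    ∃ B : Finset ℝ, (∀ t ∈ B, a < t ∧ t < b) ∧
      (∀ t, a < t → t < b → t ∉ B → rightSlope φ t + leftSlope φ t = 0) ∧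
      rightSlope φ a + ∑ t ∈ B, (rightSlope φ t + leftSlope φ t) + leftSlope φ b = 0 := by
  classical
  induction h with
  | @piece a b hab m h =>
    have hR : ∀ t, a ≤ t → t < b → rightSlope φ t = m := by
      intro t h1 h2
      apply rightSlope_eq
      refine ⟨b - t, by linarith, fun s hs1 hs2 => ?_⟩
      rw [h s (by linarith) (by linarith), h t h1 h2.le]
      ring
    have hL : ∀ t, a < t → t ≤ b → leftSlope φ t = -m := by
      intro t h1 h2
      apply leftSlope_eq
      refine ⟨t - a, by linarith, fun s hs1 hs2 => ?_⟩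
      rw [h s (by linarith) (by linarith), h t h1.le h2]
      push_cast
      ring
    refine ⟨∅, by simp, ?_, ?_⟩
    · intro t h1 h2 _
      rw [hR t h1.le h2, hL t h1 h2.le]; ring
    · rw [hR a le_rfl hab, hL b hab le_rfl]; simp
  | @glue a b c h₁ h₂ ih₁ ih₂ =>
    obtain ⟨B₁, hB₁, hz₁, hs₁⟩ := ih₁
    obtain ⟨B₂, hB₂, hz₂, hs₂⟩ := ih₂
    have hab := h₁.lt
    have hbc := h₂.lt
    have hb1 : b ∉ B₁ := fun hb => lt_irrefl _ (hB₁ b hb).2
    have hb2 : b ∉ B₂ := fun hb => lt_irrefl _ (hB₂ b hb).1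
    have hdisj : Disjoint B₁ (insert b B₂) := by
      rw [Finset.disjoint_left]
      intro t ht1 ht2
      rw [Finset.mem_insert] at ht2
      rcases ht2 with rfl | ht2
      · exact hb1 ht1
      · exact lt_asymm (hB₁ t ht1).2 (hB₂ t ht2).1
    refine ⟨B₁ ∪ insert b B₂, ?_, ?_, ?_⟩
    · intro t ht
      rw [Finset.mem_union, Finset.mem_insert] at ht
      rcases ht with ht | rfl | ht
      · exact ⟨(hB₁ t ht).1, (hB₁ t ht).2.trans hbc⟩
      · exact ⟨hab, hbc⟩
      · exact ⟨hab.trans (hB₂ t ht).1, (hB₂ t ht).2⟩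
    · intro t h1 h2 ht
      rw [Finset.mem_union, Finset.mem_insert] at ht
      push Not at ht
      obtain ⟨ht1, ht2, ht3⟩ := ht
      rcases lt_trichotomy t b with hb | hb | hb
      · exact hz₁ t h1 hb ht1
      · exact absurd hb ht2
      · exact hz₂ t hb h2 ht3
    · rw [Finset.sum_union hdisj, Finset.sum_insert hb2]
      linarith

/-- A quantitative intermediate value theorem: an upward crossing point. -/
theorem IntPL.cross_up {φ : ℝ → ℝ} {a b : ℝ} (h : IntPL φ a b) {c : ℝ} :
    φ a ≤ c → c < φ b → ∃ t, a ≤ t ∧ t < b ∧ φ t = c ∧ 0 < rightSlope φ t := by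
  induction h with
  | @piece a b hab m h =>
    intro h1 h2
    have hb := h b hab.le le_rfl
    have hm : 0 < (m : ℝ) := by
      by_contra hcon
      push Not at hcon
      nlinarith [mul_nonneg (sub_nonneg.2 hab.le) (neg_nonneg.2 hcon)]
    set t := a + (c - φ a) / m with ht
    have e0 : 0 ≤ (c - φ a) / m := div_nonneg (by linarith) hm.le
    have e1 : (c - φ a) / m < b - a := by
      rw [div_lt_iff₀ hm]; linarith
    have hta : a ≤ t := by linarith
    have htb : t < b := by linarith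
    refine ⟨t, hta, htb, ?_, ?_⟩
    · rw [h t hta htb.le, ht]
      field_simp
      ring
    · have : rightSlope φ t = m := by
        apply rightSlope_eq
        refine ⟨b - t, by linarith, fun s hs1 hs2 => ?_⟩
        rw [h s (by linarith) (by linarith), h t hta htb.le]
        ring
      rw [this]
      exact_mod_cast hm
  | @glue a b c' h₁ h₂ ih₁ ih₂ =>
    intro h1 h2
    by_cases hb : φ b ≤ c
    · obtain ⟨t, e1, e2, e3, e4⟩ := ih₂ hb h2
      exact ⟨t, h₁.lt.le.trans e1, e2, e3, e4⟩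
    · obtain ⟨t, e1, e2, e3, e4⟩ := ih₁ h1 (not_le.1 hb)
      exact ⟨t, e1, e2.trans h₂.lt, e3, e4⟩

/-- The mirrored statement: a downward crossing point. -/
theorem IntPL.cross_down {φ : ℝ → ℝ} {a b : ℝ} (h : IntPL φ a b) {c : ℝ} :
    φ b ≤ c → c < φ a → ∃ t, a < t ∧ t ≤ b ∧ φ t = c ∧ 0 < leftSlope φ t := by
  induction h with
  | @piece a b hab m h =>
    intro h1 h2
    have hb := h b hab.le le_rfl
    have hm : 0 < -(m : ℝ) := by
      by_contra hcon
      push Not at hcon
      nlinarith [mul_nonneg (sub_nonneg.2 hab.le) (neg_nonneg.2 hcon)]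
    set t := a + (φ a - c) / (-m) with ht
    have e0 : 0 < (φ a - c) / (-m) := div_pos (by linarith) hm
    have e1 : (φ a - c) / (-m) ≤ b - a := by
      rw [div_le_iff₀ hm]; linarith
    have hta : a < t := by linarith
    have htb : t ≤ b := by linarith
    refine ⟨t, hta, htb, ?_, ?_⟩
    · have hm0 : (m : ℝ) ≠ 0 := by intro h0; rw [h0] at hm; simp at hm
      rw [h t hta.le htb, ht]
      field_simp
      ring
    · have : leftSlope φ t = -m := by
        apply leftSlope_eq
        refine ⟨t - a, by linarith, fun s hs1 hs2 => ?_⟩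
        rw [h s (by linarith) (by linarith), h t hta.le htb]
        push_cast
        ring
      rw [this]
      exact_mod_cast hm
  | @glue a b c' h₁ h₂ ih₁ ih₂ =>
    intro h1 h2
    by_cases hb : φ b ≤ c
    · obtain ⟨t, e1, e2, e3, e4⟩ := ih₁ hb h2
      exact ⟨t, e1, e2.trans h₂.lt.le, e3, e4⟩
    · obtain ⟨t, e1, e2, e3, e4⟩ := ih₂ h1 (not_le.1 hb)
      exact ⟨t, h₁.lt.trans e1, e2, e3, e4⟩

/-! ### Closure properties -/

theorem IntPL.congr {φ ψ : ℝ → ℝ} {a b : ℝ} (h : IntPL φ a b)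
    (hφψ : ∀ t, a ≤ t → t ≤ b → φ t = ψ t) : IntPL ψ a b := by
  induction h with
  | @piece a b hab m h =>
    refine .piece hab m (fun t h1 h2 => ?_)
    rw [← hφψ t h1 h2, ← hφψ a le_rfl hab.le, h t h1 h2]
  | @glue a b c h₁ h₂ ih₁ ih₂ =>
    exact .glue (ih₁ fun t h1 h2 => hφψ t h1 (h2.trans h₂.lt.le))
      (ih₂ fun t h1 h2 => hφψ t (h₁.lt.le.trans h1) h2)

theorem IntPL.neg {φ : ℝ → ℝ} {a b : ℝ} (h : IntPL φ a b) : IntPL (fun t => - φ t) a b := by
  induction h with
  | @piece a b hab m h =>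
    refine .piece hab (-m) (fun t h1 h2 => ?_)
    rw [h t h1 h2]; push_cast; ring
  | @glue a b c h₁ h₂ ih₁ ih₂ => exact .glue ih₁ ih₂

theorem IntPL.restrict {φ : ℝ → ℝ} {a b : ℝ} (h : IntPL φ a b) :
    ∀ a' b', a ≤ a' → a' < b' → b' ≤ b → IntPL φ a' b' := by
  induction h with
  | @piece a b hab m h =>
    intro a' b' h1 h2 h3
    refine .piece h2 m (fun t h4 h5 => ?_)
    rw [h t (h1.trans h4) (h5.trans h3), h a' h1 (h2.le.trans h3)]
    ring
  | @glue a b c h₁ h₂ ih₁ ih₂ =>
    intro a' b' h1 h2 h3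
    by_cases hb : b' ≤ b
    · exact ih₁ a' b' h1 h2 hb
    · by_cases ha : b ≤ a'
      · exact ih₂ a' b' ha h2 h3
      · push Not at ha hb
        exact .glue (ih₁ a' b h1 ha le_rfl) (ih₂ b b' le_rfl hb h3)

theorem IntPL.add_affine {φ ψ : ℝ → ℝ} {a b : ℝ} (m : ℤ) (h : IntPL ψ a b)
    (hφ : ∀ t, a ≤ t → t ≤ b → φ t = φ a + m * (t - a)) : IntPL (fun t => φ t + ψ t) a b := by
  induction h with
  | @piece a b hab m' h =>
    refine .piece hab (m + m') (fun t h1 h2 => ?_)
    rw [h t h1 h2, hφ t h1 h2]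
    push_cast; ring
  | @glue a b c h₁ h₂ ih₁ ih₂ =>
    refine .glue (ih₁ fun t h1 h2 => hφ t h1 (h2.trans h₂.lt.le)) (ih₂ fun t h1 h2 => ?_)
    rw [hφ t (h₁.lt.le.trans h1) h2, hφ b h₁.lt.le h₂.lt.le]
    ring

theorem IntPL.add {φ ψ : ℝ → ℝ} {a b : ℝ} (hφ : IntPL φ a b) (hψ : IntPL ψ a b) :
    IntPL (fun t => φ t + ψ t) a b := by
  induction hφ with
  | @piece a b hab m h => exact hψ.add_affine m h
  | @glue a b c h₁ h₂ ih₁ ih₂ =>
    exact .glue (ih₁ (hψ.restrict a b le_rfl h₁.lt h₂.lt.le))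
      (ih₂ (hψ.restrict b c h₁.lt.le h₂.lt le_rfl))

theorem IntPL.max_const {φ : ℝ → ℝ} {a b : ℝ} (c : ℝ) (h : IntPL φ a b) :
    IntPL (fun t => max (φ t) c) a b := by
  induction h with
  | @piece a b hab m h =>
    have hb := h b hab.le le_rfl
    by_cases h1 : φ a ≤ c
    · by_cases h2 : φ b ≤ c
      · -- everything is at most `c`
        refine .piece hab 0 (fun t ht1 ht2 => ?_)
        have : φ t ≤ c := by
          rw [h t ht1 ht2]
          rcases le_or_gt 0 (m : ℝ) with hm | hm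
          · nlinarith [mul_nonneg hm (sub_nonneg.2 ht2)]
          · nlinarith [mul_nonneg (neg_nonneg.2 hm.le) (sub_nonneg.2 ht1)]
        rw [max_eq_right this, max_eq_right h1]; push_cast; ring
      · push Not at h2
        -- crossing upwards
        have hm : 0 < (m : ℝ) := by
          by_contra hcon
          push Not at hcon
          nlinarith [mul_nonneg (sub_nonneg.2 hab.le) (neg_nonneg.2 hcon)]
        set q := a + (c - φ a) / m with hq
        have e0 : 0 ≤ (c - φ a) / m := div_nonneg (by linarith) hm.le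
        have e1 : (c - φ a) / m < b - a := by
          rw [div_lt_iff₀ hm]; linarith
        have hqa : a ≤ q := by linarith
        have hqb : q < b := by linarith
        have hφq : φ q = c := by
          rw [h q hqa hqb.le, hq]; field_simp; ring
        have hR : IntPL (fun t => max (φ t) c) q b := by
          refine .piece hqb m (fun t ht1 ht2 => ?_)
          have e2 : φ t = c + m * (t - q) := by
            rw [h t (hqa.trans ht1) ht2, ← hφq, h q hqa hqb.le]; ring
          have : c ≤ φ t := by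
            rw [e2]; nlinarith [mul_nonneg hm.le (sub_nonneg.2 ht1)]
          rw [max_eq_left this, hφq, max_self, e2]
        rcases eq_or_lt_of_le hqa with he | hlt
        · rw [he]; exact hR
        · refine .glue (.piece hlt 0 (fun t ht1 ht2 => ?_)) hR
          have : φ t ≤ c := by
            rw [← hφq, h t ht1 (ht2.trans hqb.le), h q hqa hqb.le]
            nlinarith [mul_nonneg hm.le (sub_nonneg.2 ht2)]
          rw [max_eq_right this, max_eq_right h1]; push_cast; ring
    · push Not at h1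
      by_cases h2 : c ≤ φ b
      · -- everything is at least `c`
        refine .piece hab m (fun t ht1 ht2 => ?_)
        have : c ≤ φ t := by
          rw [h t ht1 ht2]
          rcases le_or_gt 0 (m : ℝ) with hm | hm
          · nlinarith [mul_nonneg hm (sub_nonneg.2 ht1)]
          · nlinarith [mul_nonneg (neg_nonneg.2 hm.le) (sub_nonneg.2 ht2)]
        rw [max_eq_left this, max_eq_left h1.le, h t ht1 ht2]
      · push Not at h2
        -- crossing downwards
        have hm : 0 < -(m : ℝ) := by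
          by_contra hcon
          push Not at hcon
          nlinarith [mul_nonneg (sub_nonneg.2 hab.le) (neg_nonneg.2 hcon)]
        set q := a + (φ a - c) / (-m) with hq
        have e0 : 0 < (φ a - c) / (-m) := div_pos (by linarith) hm
        have e1 : (φ a - c) / (-m) < b - a := by
          rw [div_lt_iff₀ hm]; linarith
        have hqa : a < q := by linarith
        have hqb : q < b := by linarith
        have hm0 : (m : ℝ) ≠ 0 := by intro h0; rw [h0] at hm; simp at hm
        have hφq : φ q = c := by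
          rw [h q hqa.le hqb.le, hq]; field_simp; ring
        refine .glue (.piece hqa m (fun t ht1 ht2 => ?_)) (.piece hqb 0 (fun t ht1 ht2 => ?_))
        · have : c ≤ φ t := by
            rw [← hφq, h t ht1 (ht2.trans hqb.le), h q hqa.le hqb.le]
            nlinarith [mul_nonneg hm.le (sub_nonneg.2 ht2)]
          rw [max_eq_left this, max_eq_left h1.le, h t ht1 (ht2.trans hqb.le)]
        · have e2 : φ t = c + m * (t - q) := by
            rw [h t (hqa.le.trans ht1) ht2, ← hφq, h q hqa.le hqb.le]; ring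
          have : φ t ≤ c := by
            rw [e2]; nlinarith [mul_nonneg hm.le (sub_nonneg.2 ht1)]
          rw [max_eq_right this, hφq, max_self]; push_cast; ring
  | @glue a b c' h₁ h₂ ih₁ ih₂ => exact .glue ih₁ ih₂

/-! ### Slopes of sums, negatives and truncations -/

theorem HasRightSlope.add {φ ψ : ℝ → ℝ} {t : ℝ} {m m' : ℤ} (h : HasRightSlope φ t m)
    (h' : HasRightSlope ψ t m') : HasRightSlope (fun s => φ s + ψ s) t (m + m') := by
  obtain ⟨ε, hε, h⟩ := h
  obtain ⟨ε', hε', h'⟩ := h'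
  refine ⟨min ε ε', lt_min hε hε', fun s hs1 hs2 => ?_⟩
  have := min_le_left ε ε'
  have := min_le_right ε ε'
  simp only
  rw [h s hs1 (by linarith), h' s hs1 (by linarith)]
  push_cast; ring

theorem HasLeftSlope.add {φ ψ : ℝ → ℝ} {t : ℝ} {m m' : ℤ} (h : HasLeftSlope φ t m)
    (h' : HasLeftSlope ψ t m') : HasLeftSlope (fun s => φ s + ψ s) t (m + m') := by
  obtain ⟨ε, hε, h⟩ := h
  obtain ⟨ε', hε', h'⟩ := h'
  refine ⟨min ε ε', lt_min hε hε', fun s hs1 hs2 => ?_⟩
  have := min_le_left ε ε'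
  have := min_le_right ε ε'
  simp only
  rw [h s (by linarith) hs2, h' s (by linarith) hs2]
  push_cast; ring

theorem HasRightSlope.neg {φ : ℝ → ℝ} {t : ℝ} {m : ℤ} (h : HasRightSlope φ t m) :
    HasRightSlope (fun s => - φ s) t (-m) := by
  obtain ⟨ε, hε, h⟩ := h
  refine ⟨ε, hε, fun s hs1 hs2 => ?_⟩
  simp only
  rw [h s hs1 hs2]
  push_cast; ring

theorem HasLeftSlope.neg {φ : ℝ → ℝ} {t : ℝ} {m : ℤ} (h : HasLeftSlope φ t m) :
    HasLeftSlope (fun s => - φ s) t (-m) := by
  obtain ⟨ε, hε, h⟩ := h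
  refine ⟨ε, hε, fun s hs1 hs2 => ?_⟩
  simp only
  rw [h s hs1 hs2]
  push_cast; ring

/-- slope of a truncation -/
noncomputable def truncSlope (x c : ℝ) (m : ℤ) : ℤ :=
  if c < x then m else if x < c then 0 else max m 0

theorem exists_eps (x c : ℝ) (m : ℤ) (hxc : c ≠ x) :
    ∃ δ > 0, ∀ d : ℝ, 0 ≤ d → d < δ → (c < x → c < x + m * d) ∧ (x < c → x + m * d < c) := by
  refine ⟨|x - c| / (|(m : ℝ)| + 1), ?_, fun d hd0 hd => ?_⟩
  · apply div_pos
    · rw [abs_pos]; exact sub_ne_zero.2 hxc.symm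
    · positivity
  · have hpos : 0 < |(m : ℝ)| + 1 := by positivity
    have e1 : d * (|(m : ℝ)| + 1) < |x - c| := by rwa [lt_div_iff₀ hpos] at hd
    have e2 : |(m : ℝ) * d| < |x - c| := by
      rw [abs_mul, abs_of_nonneg hd0]; nlinarith [abs_nonneg (m : ℝ)]
    have e3 := abs_lt.1 e2
    constructor
    · intro h
      rw [abs_of_pos (sub_pos.2 h)] at e3
      linarith
    · intro h
      rw [abs_of_neg (sub_neg.2 h)] at e3
      linarith

theorem HasRightSlope.max_const {φ : ℝ → ℝ} {t : ℝ} {m : ℤ} (c : ℝ) (h : HasRightSlope φ t m) :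
    HasRightSlope (fun s => max (φ s) c) t (truncSlope (φ t) c m) := by
  obtain ⟨ε, hε, h⟩ := h
  unfold truncSlope
  by_cases hc : c = φ t
  · rw [if_neg (by rw [hc]; exact lt_irrefl _), if_neg (by rw [hc]; exact lt_irrefl _)]
    refine ⟨ε, hε, fun s hs1 hs2 => ?_⟩
    simp only
    rw [h s hs1 hs2, ← hc]
    rcases le_total 0 m with hm | hm
    · have hm' : (0 : ℝ) ≤ m := by exact_mod_cast hm
      rw [max_eq_left hm, max_self, max_eq_left]
      nlinarith [mul_nonneg hm' (sub_nonneg.2 hs1.le)]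
    · have hm' : (m : ℝ) ≤ 0 := by exact_mod_cast hm
      rw [max_eq_right hm, max_self, max_eq_right]
      · push_cast; ring
      · nlinarith [mul_nonneg (neg_nonneg.2 hm') (sub_nonneg.2 hs1.le)]
  · obtain ⟨δ, hδ, hd⟩ := exists_eps (φ t) c m hc
    refine ⟨min ε δ, lt_min hε hδ, fun s hs1 hs2 => ?_⟩
    have := min_le_left ε δ
    have := min_le_right ε δ
    have hs := h s hs1 (by linarith)
    obtain ⟨d1, d2⟩ := hd (s - t) (by linarith) (by linarith)
    simp only
    by_cases hc1 : c < φ t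
    · rw [if_pos hc1, hs, max_eq_left (d1 hc1).le, max_eq_left hc1.le]
    · have hc2 : φ t < c := lt_of_le_of_ne (not_lt.1 hc1) (Ne.symm hc)
      rw [if_neg hc1, if_pos hc2, hs, max_eq_right (d2 hc2).le, max_eq_right hc2.le]
      push_cast; ring

theorem HasLeftSlope.max_const {φ : ℝ → ℝ} {t : ℝ} {m : ℤ} (c : ℝ) (h : HasLeftSlope φ t m) :
    HasLeftSlope (fun s => max (φ s) c) t (truncSlope (φ t) c m) := by
  obtain ⟨ε, hε, h⟩ := h
  unfold truncSlope
  by_cases hc : c = φ t
  · rw [if_neg (by rw [hc]; exact lt_irrefl _), if_neg (by rw [hc]; exact lt_irrefl _)]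
    refine ⟨ε, hε, fun s hs1 hs2 => ?_⟩
    simp only
    rw [h s hs1 hs2, ← hc]
    rcases le_total 0 m with hm | hm
    · have hm' : (0 : ℝ) ≤ m := by exact_mod_cast hm
      rw [max_eq_left hm, max_self, max_eq_left]
      nlinarith [mul_nonneg hm' (sub_nonneg.2 hs2.le)]
    · have hm' : (m : ℝ) ≤ 0 := by exact_mod_cast hm
      rw [max_eq_right hm, max_self, max_eq_right]
      · push_cast; ring
      · nlinarith [mul_nonneg (neg_nonneg.2 hm') (sub_nonneg.2 hs2.le)]
  · obtain ⟨δ, hδ, hd⟩ := exists_eps (φ t) c m hc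
    refine ⟨min ε δ, lt_min hε hδ, fun s hs1 hs2 => ?_⟩
    have := min_le_left ε δ
    have := min_le_right ε δ
    have hs := h s (by linarith) hs2
    obtain ⟨d1, d2⟩ := hd (t - s) (by linarith) (by linarith)
    simp only
    by_cases hc1 : c < φ t
    · rw [if_pos hc1, hs, max_eq_left (d1 hc1).le, max_eq_left hc1.le]
    · have hc2 : φ t < c := lt_of_le_of_ne (not_lt.1 hc1) (Ne.symm hc)
      rw [if_neg hc1, if_pos hc2, hs, max_eq_right (d2 hc2).le, max_eq_right hc2.le]
      push_cast; ring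

end Pool.Agent.MP7c139f.MultiGraph
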