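import Pool.Agent.MP7c139f.Bounds

set_option autoImplicit false
set_option linter.unusedSectionVars false

namespace Pool.Agent.MP7c139f.MultiGraph

/-! ### Six chips at `0` cover the graph -/

/-- firing vectors showing that `6 [0] - [w]` is equivalent to an effective divisor -/
def fireB (w : Fin 14) : Fin 14 → ℤ :=
  if w.val = 0 then fun _ => 0
  else if w.val ≤ 4 then fn [1, 0, 0, 0, 0, 1, 0, 0]
  else if w.val = 5 then fn [3, 3, 3, 3, 3, 0, 3, 3]
  else if w.val = 6 then fn [2, 1, 1, 1, 1, 2, 0, 1]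
  else if w.val = 7 then fn [2, 1, 1, 1, 1, 2, 1, 0]
  else fun v => if v.val < 8 then 1 else 0

theorem fireB_ok : ∀ w v : Fin 14, 0 ≤ (if v = 0 then (6 : ℤ) else 0) - (if v = w then 1 else 0) +
    lapL (fireB w) v := by decide +kernel

theorem single_apply' (u v : Fin 14) (n : ℤ) :
    (Pi.single u n : Fin 14 → ℤ) v = if v = u then n else 0 := by
  by_cases h : v = u
  · rw [h, Pi.single_eq_same, if_pos rfl]
  · rw [Pi.single_eq_of_ne h, if_neg h]

theorem dEff_six (w : Fin 14) : G₀.DEff (Pi.single 0 6 - Pi.single w 1) := by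
  refine dEff_of_lap (fireB w) (fun v => ?_)
  rw [Pi.sub_apply, lap_G₀, single_apply', single_apply']
  exact fireB_ok w v

/-- firing vectors for two chips on the second block -/
def fireK (u w : Fin 14) : Fin 14 → ℤ := fun v =>
  if v.val < 8 then 1 else if u = w ∧ v = w then -1 else 0

theorem fireK_ok : ∀ u w v : Fin 14, 8 ≤ u.val → 8 ≤ w.val →
    0 ≤ (if v = 0 then (8 : ℤ) else 0) - (if v = u then 1 else 0) - (if v = w then 1 else 0) +
      lapL (fireK u w) v := by decide +kernel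

theorem dEff_eight {u w : Fin 14} (hu : 8 ≤ u.val) (hw : 8 ≤ w.val) :
    G₀.DEff (Pi.single 0 8 - Pi.single u 1 - Pi.single w 1) := by
  refine dEff_of_lap (fireK u w) (fun v => ?_)
  rw [Pi.sub_apply, Pi.sub_apply, lap_G₀, single_apply', single_apply', single_apply']
  exact fireK_ok u w v hu hw

/-! ### The half-integral divisor on the first block -/

/-- the three edges carrying a chip at the midpoint -/
def e6 : Fin edges.length := ⟨6, by decide +kernel⟩
/-- the three edges carrying a chip at the midpoint -/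
def e7 : Fin edges.length := ⟨7, by decide +kernel⟩
/-- the three edges carrying a chip at the midpoint -/
def e8 : Fin edges.length := ⟨8, by decide +kernel⟩

/-- chips at the midpoints of three edges -/
noncomputable def mids : Pt (Fin 14) (Fin edges.length) →₀ ℤ :=
  Finsupp.single (Sum.inr (e6, half)) 1 + Finsupp.single (Sum.inr (e7, half)) 1 +
    Finsupp.single (Sum.inr (e8, half)) 1

theorem fs_inr_inl {V E : Type} (y : E × Set.Ioo (0 : ℝ) 1) (v : V) (n : ℤ) :
    (Finsupp.single (Sum.inr y) n : Pt V E →₀ ℤ) (Sum.inl v) = 0 := by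
  classical
  rw [Finsupp.single_eq_of_ne]
  exact Sum.inl_ne_inr

theorem fs_inl_inr {V E : Type} (y : E × Set.Ioo (0 : ℝ) 1) (v : V) (n : ℤ) :
    (Finsupp.single (Sum.inl v) n : Pt V E →₀ ℤ) (Sum.inr y) = 0 := by
  classical
  rw [Finsupp.single_eq_of_ne]
  exact Sum.inr_ne_inl

theorem fs_nonneg {V E : Type} (x y : Pt V E) (n : ℤ) (hn : 0 ≤ n) :
    0 ≤ (Finsupp.single x n : Pt V E →₀ ℤ) y := by
  classical
  by_cases h : y = x
  · rw [h, Finsupp.single_eq_same]; exact hn
  · rw [Finsupp.single_eq_of_ne h]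

theorem mids_nonneg (x : Pt (Fin 14) (Fin edges.length)) : 0 ≤ mids x := by
  unfold mids
  rw [Finsupp.add_apply, Finsupp.add_apply]
  exact add_nonneg (add_nonneg (fs_nonneg _ _ _ (by norm_num)) (fs_nonneg _ _ _ (by norm_num)))
    (fs_nonneg _ _ _ (by norm_num))

theorem mids_inl (v : Fin 14) : mids (Sum.inl v) = 0 := by
  unfold mids
  rw [Finsupp.add_apply, Finsupp.add_apply, fs_inr_inl, fs_inr_inl, fs_inr_inl]; rfl

theorem mids_half (e : Fin edges.length) : mids (Sum.inr (e, half)) =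
    (if e = e6 then 1 else 0) + (if e = e7 then 1 else 0) + (if e = e8 then 1 else 0) := by
  classical
  have key : ∀ e' : Fin edges.length, (Finsupp.single (Sum.inr (e', half)) 1 :
      Pt (Fin 14) (Fin edges.length) →₀ ℤ) (Sum.inr (e, half)) = if e = e' then 1 else 0 := by
    intro e'
    by_cases h : e = e'
    · rw [h, Finsupp.single_eq_same, if_pos rfl]
    · rw [if_neg h, Finsupp.single_eq_of_ne]
      intro h'
      exact h (Prod.mk.inj (Sum.inr_injective h')).1
  unfold mids
  rw [Finsupp.add_apply, Finsupp.add_apply, key, key, key]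

/-- half-integral certificates: vertex values -/
def certF (v : Fin 14) : List ℤ :=
  if v.val = 0 then [0, 0, 0, 0, 0, 0, 0, 0]
  else if v.val = 1 then [1, 0, 1, 1, 1, 1, 0, 1]
  else if v.val = 2 then [1, 1, 0, 1, 1, 1, 1, 0]
  else if v.val = 3 then [1, 1, 1, 0, 0, 1, 1, 1]
  else if v.val = 4 then [1, 1, 1, 0, 0, 1, 1, 1]
  else if v.val = 5 then [2, 2, 2, 2, 2, 0, 2, 2]
  else if v.val = 6 then [3, 2, 3, 3, 3, 3, 0, 3]
  else [3, 3, 2, 3, 3, 3, 3, 0]

/-- half-integral certificates: values at the midpoints -/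
def certM (v : Fin 14) : List ℤ :=
  if v.val = 0 then [0, 0, 0, 0, 0, 0, 0, 0, 0, 0, 0, 0, 0, 0, 0, 0, 0]
  else if v.val = 1 then [0, 0, 1, 1, 1, 1, 1, 1, 1, 1, 1, 1, 1, 0, 0, 1, 1]
  else if v.val = 2 then [1, 1, 0, 0, 1, 1, 1, 1, 1, 1, 1, 1, 1, 1, 1, 0, 0]
  else if v.val = 3 then [1, 1, 1, 1, 0, 0, 1, 1, 1, 0, 0, 1, 1, 1, 1, 1, 1]
  else if v.val = 4 then [1, 1, 1, 1, 0, 0, 1, 1, 1, 0, 0, 1, 1, 1, 1, 1, 1]
  else if v.val = 5 then [2, 2, 2, 2, 2, 2, 2, 2, 2, 2, 2, 1, 1, 2, 2, 2, 2]
  else if v.val = 6 then [2, 2, 3, 3, 3, 3, 3, 3, 3, 3, 3, 3, 3, 1, 1, 3, 3]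
  else [3, 3, 2, 2, 3, 3, 3, 3, 3, 3, 3, 3, 3, 3, 3, 1, 1]

/-- value at the midpoints, constant on the second block -/
def mfn (v : Fin 14) (e : Fin edges.length) : ℤ := (certM v).getD e.val ((certF v).getD 0 0)

theorem certV : ∀ w v : Fin 14, w.val < 8 →
    0 ≤ (if v = 0 then (2 : ℤ) else 0) - (if v = w then 1 else 0) +
      ∑ e, ((if G₀.src e = v then mfn w e - fn (certF w) v else 0) +
        (if G₀.tgt e = v then mfn w e - fn (certF w) v else 0)) := by
  decide +kernel

theorem certE : ∀ (w : Fin 14) (e : Fin edges.length), w.val < 8 →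
    0 ≤ ((if e = e6 then 1 else 0) + (if e = e7 then 1 else 0) + (if e = e8 then 1 else 0) : ℤ) +
      (fn (certF w) (G₀.src e) + fn (certF w) (G₀.tgt e) - 2 * mfn w e) := by
  decide +kernel

theorem mEff_first {w : Fin 14} (hw : w.val < 8) :
    G₀.MEff (emb (Pi.single 0 2) + mids - Finsupp.single (Sum.inl w) 1) := by
  refine mEff_of_interp G₀ (fn (certF w)) (mfn w) ?_ ?_ ?_
  · intro v
    have h := certV w v hw
    rw [Finsupp.sub_apply, Finsupp.add_apply, emb_inl, mids_inl, single_apply',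
      ← emb_single, emb_inl, single_apply', add_zero]
    exact h
  · intro e
    have h := certE w e hw
    rw [Finsupp.sub_apply, Finsupp.add_apply, emb_inr, mids_half, fs_inl_inr, zero_add, sub_zero]
    exact h
  · intro e t ht
    rw [Finsupp.sub_apply, Finsupp.add_apply, emb_inr, fs_inl_inr, zero_add, sub_zero]
    exact mids_nonneg _

theorem mEff_six (w : Fin 14) :
    G₀.MEff (emb (Pi.single 0 6) - Finsupp.single (Sum.inl w) 1) := by
  have := MEff_emb (dEff_six w)
  rwa [emb_sub, emb_single w 1] at this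

/-- the divisor of degree 11 and rank 2 on the metric graph -/
noncomputable def D₁₁ : Pt (Fin 14) (Fin edges.length) →₀ ℤ := emb (Pi.single 0 8) + mids

theorem D₁₁_split : D₁₁ = (emb (Pi.single 0 2) + mids) + emb (Pi.single 0 6) := by
  unfold D₁₁
  rw [emb_single, emb_single, emb_single]
  have : (Finsupp.single (Sum.inl 0) 8 : Pt (Fin 14) (Fin edges.length) →₀ ℤ) =
      Finsupp.single (Sum.inl 0) 2 + Finsupp.single (Sum.inl 0) 6 := by
    rw [← Finsupp.single_add]; norm_num
  rw [this]; abel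

theorem mdeg_D₁₁ : mdeg D₁₁ = 11 := by
  unfold D₁₁ mids
  rw [mdeg_add, mdeg_emb, mdeg_add, mdeg_add, mdeg_single, mdeg_single, mdeg_single,
    Finset.sum_pi_single', if_pos (Finset.mem_univ _)]
  norm_num

theorem rank_D₁₁ : G₀.MRankGe D₁₁ 2 := by
  apply mRankGe_of_vRank
  intro v w
  show G₀.MEff (D₁₁ - Finsupp.single (Sum.inl v) 1 - Finsupp.single (Sum.inl w) 1)
  by_cases hv : v.val < 8
  · have := (mEff_first hv).add' (mEff_six w)
    have e : D₁₁ - Finsupp.single (Sum.inl v) 1 - Finsupp.single (Sum.inl w) 1 =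
        (emb (Pi.single 0 2) + mids - Finsupp.single (Sum.inl v) 1) +
        (emb (Pi.single 0 6) - Finsupp.single (Sum.inl w) 1) := by
      rw [D₁₁_split]; abel
    rw [e]; exact this
  · by_cases hw : w.val < 8
    · have := (mEff_first hw).add' (mEff_six v)
      have e : D₁₁ - Finsupp.single (Sum.inl v) 1 - Finsupp.single (Sum.inl w) 1 =
          (emb (Pi.single 0 2) + mids - Finsupp.single (Sum.inl w) 1) +
          (emb (Pi.single 0 6) - Finsupp.single (Sum.inl v) 1) := by
        rw [D₁₁_split]; abel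
      rw [e]; exact this
    · have := (MEff_emb (dEff_eight (u := v) (w := w) (by omega) (by omega))).add mids_nonneg
      rw [emb_sub, emb_sub, emb_single v 1, emb_single w 1] at this
      have e : D₁₁ - Finsupp.single (Sum.inl v) 1 - Finsupp.single (Sum.inl w) 1 =
          emb (Pi.single 0 8) - Finsupp.single (Sum.inl v) 1 - Finsupp.single (Sum.inl w) 1 +
            mids := by
        unfold D₁₁; abel
      rw [e]; exact this

/-! ### The four gonalities -/

theorem exists_pos_of_sum {V : Type} [Fintype V] {A : V → ℤ} {n : ℕ} (h : ∑ v, A v = n + 1) :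
    ∃ v, 1 ≤ A v := by
  by_contra hno
  push Not at hno
  have : ∑ v, A v ≤ 0 := Finset.sum_nonpos (fun v _ => by have := hno v; omega)
  omega

theorem sub_single_nonneg {V : Type} [Fintype V] [DecidableEq V] {A : V → ℤ} {v : V}
    (hA : ∀ u, 0 ≤ A u) (hv : 1 ≤ A v) (u : V) : 0 ≤ (A - Pi.single v 1 : V → ℤ) u := by
  rw [Pi.sub_apply]
  by_cases h : u = v
  · rw [h, Pi.single_eq_same]; linarith
  · rw [Pi.single_eq_of_ne h]; simpa using hA u

theorem sum_sub_single {V : Type} [Fintype V] [DecidableEq V] (A : V → ℤ) (v : V) :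
    ∑ u, (A - Pi.single v 1 : V → ℤ) u = ∑ u, A u - 1 := by
  simp only [Pi.sub_apply]
  rw [Finset.sum_sub_distrib, Finset.sum_pi_single', if_pos (Finset.mem_univ v)]

theorem eq_single_of_sum_one {V : Type} [Fintype V] [DecidableEq V] {A : V → ℤ}
    (hA : ∀ u, 0 ≤ A u) (h : ∑ v, A v = 1) : ∃ v, A = Pi.single v 1 := by
  obtain ⟨v, hv⟩ := exists_pos_of_sum (n := 0) (by rw [h]; norm_num)
  refine ⟨v, ?_⟩
  have h0 := sub_single_nonneg hA hv
  have hs := sum_sub_single A v
  rw [h, sub_self, Finset.sum_eq_zero_iff_of_nonneg (fun u _ => h0 u)] at hs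
  have : A - Pi.single v 1 = 0 := by
    funext u
    exact hs u (Finset.mem_univ u)
  exact sub_eq_zero.1 this

theorem isMDgon_one : G₀.IsMDgon 1 6 := by
  constructor
  · refine ⟨emb (Pi.single 0 6), ?_, ?_⟩
    · rw [mdeg_emb, Finset.sum_pi_single', if_pos (Finset.mem_univ _)]; norm_num
    · apply mRankGe_of_vRank
      intro w
      exact mEff_six w
  · rintro d ⟨D, hD, hr⟩
    by_contra hlt
    push Not at hlt
    obtain ⟨w, _, hno⟩ := metric_lower₀ (D := D) (by rw [hD]; exact_mod_cast (by omega : d ≤ 5))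
    exact hno (hr (Finsupp.single (Sum.inl w) 1) (fun x => fs_nonneg _ _ _ (by norm_num))
      (by rw [mdeg_single]; norm_num))

theorem isDgon_one : G₀.IsDgon 1 6 := by
  constructor
  · refine ⟨Pi.single 0 6, ?_, ?_⟩
    · rw [Finset.sum_pi_single', if_pos (Finset.mem_univ _)]; norm_num
    · intro A hA hs
      obtain ⟨w, rfl⟩ := eq_single_of_sum_one hA (by rw [hs]; norm_num)
      exact dEff_six w
  · rintro d ⟨D, hD, hr⟩
    by_contra hlt
    push Not at hlt
    obtain ⟨w, _, hno⟩ := discrete_lower₀ (D := D) (by rw [hD]; exact_mod_cast (by omega : d ≤ 5))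
    exact hno (hr (Pi.single w 1) (fun u => single_nonneg w u 1 (by norm_num))
      (by rw [Finset.sum_pi_single', if_pos (Finset.mem_univ _)]; norm_num))

theorem isMDgon_two : ∃ d, G₀.IsMDgon 2 d ∧ d < 12 := by
  have hmem : 11 ∈ {d : ℕ | ∃ D : Pt (Fin 14) (Fin edges.length) →₀ ℤ,
      mdeg D = d ∧ G₀.MRankGe D 2} := ⟨D₁₁, by rw [mdeg_D₁₁]; norm_num, rank_D₁₁⟩
  refine ⟨sInf {d : ℕ | ∃ D : Pt (Fin 14) (Fin edges.length) →₀ ℤ,
      mdeg D = d ∧ G₀.MRankGe D 2}, ⟨Nat.sInf_mem ⟨11, hmem⟩, fun d hd => Nat.sInf_le hd⟩, ?_⟩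
  exact lt_of_le_of_lt (Nat.sInf_le hmem) (by norm_num)

theorem isDgon_two : G₀.IsDgon 2 12 := by
  constructor
  · refine ⟨Pi.single 0 12, ?_, ?_⟩
    · rw [Finset.sum_pi_single', if_pos (Finset.mem_univ _)]; norm_num
    · intro A hA hs
      obtain ⟨v, hv⟩ := exists_pos_of_sum (n := 1) (A := A) (by rw [hs]; norm_num)
      obtain ⟨w, hw⟩ := eq_single_of_sum_one (sub_single_nonneg hA hv)
        (by rw [sum_sub_single, hs]; norm_num)
      have hA' : A = Pi.single v 1 + Pi.single w 1 := by rw [← hw]; abel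
      have h := (dEff_six v).add (dEff_six w)
      have e : (Pi.single 0 12 : Fin 14 → ℤ) - A =
          (Pi.single 0 6 - Pi.single v 1) + (Pi.single 0 6 - Pi.single w 1) := by
        rw [hA']
        have : (Pi.single 0 12 : Fin 14 → ℤ) = Pi.single 0 6 + Pi.single 0 6 := by
          rw [← Pi.single_add]; norm_num
        rw [this]; abel
      rw [e]; exact h
  · rintro d ⟨D, hD, hr⟩
    by_contra hlt
    push Not at hlt
    refine no_rank_two (D := D + Pi.single 0 (11 - d : ℤ)) ?_ ?_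
    · simp only [Pi.add_apply]
      rw [Finset.sum_add_distrib, hD, Finset.sum_pi_single', if_pos (Finset.mem_univ _)]
      ring
    · intro A hA hs
      have h1 : G₀.DEff (D - A) := hr A hA hs
      have h2 : G₀.DEff (Pi.single 0 (11 - d : ℤ)) :=
        dEff_of_nonneg (fun u => single_nonneg 0 u _ (by omega))
      have h3 := h1.add h2
      have e : D + Pi.single 0 (11 - d : ℤ) - A = D - A + Pi.single 0 (11 - d : ℤ) := by abel
      rw [e]; exact h3

/-! ### Connectedness -/

theorem adj_symm {u v : Fin 14} (h : G₀.Adj u v) : G₀.Adj v u := by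
  obtain ⟨e, h | h⟩ := h
  · exact ⟨e, Or.inr h⟩
  · exact ⟨e, Or.inl h⟩

theorem adj_parent : ∀ v : Fin 14, v ≠ 0 → ∃ e : Fin edges.length,
    (G₀.src e = (if v = 6 then 1 else if v = 7 then 2 else 0) ∧ G₀.tgt e = v) ∨
    (G₀.src e = v ∧ G₀.tgt e = (if v = 6 then 1 else if v = 7 then 2 else 0)) := by
  decide +kernel

theorem reach (v : Fin 14) : Relation.ReflTransGen G₀.Adj 0 v ∧
    Relation.ReflTransGen G₀.Adj v 0 := by
  have step : ∀ u v : Fin 14, G₀.Adj u v → Relation.ReflTransGen G₀.Adj 0 u ∧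
      Relation.ReflTransGen G₀.Adj u 0 → Relation.ReflTransGen G₀.Adj 0 v ∧
      Relation.ReflTransGen G₀.Adj v 0 := fun u v h hu =>
    ⟨hu.1.tail h, Relation.ReflTransGen.head (adj_symm h) hu.2⟩
  have base : ∀ v : Fin 14, v ≠ 6 → v ≠ 7 → Relation.ReflTransGen G₀.Adj 0 v ∧
      Relation.ReflTransGen G₀.Adj v 0 := by
    intro v h6 h7
    by_cases h0 : v = 0
    · rw [h0]; exact ⟨.refl, .refl⟩
    · refine step 0 v ?_ ⟨.refl, .refl⟩
      have := adj_parent v h0
      rw [if_neg h6, if_neg h7] at this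
      exact this
  by_cases h6 : v = 6
  · refine step 1 v ?_ (base 1 (by decide) (by decide))
    have := adj_parent v (by rw [h6]; decide)
    rw [if_pos h6] at this
    exact this
  · by_cases h7 : v = 7
    · refine step 2 v ?_ (base 2 (by decide) (by decide))
      have := adj_parent v (by rw [h7]; decide)
      rw [if_neg h6, if_pos h7] at this
      exact this
    · exact base v h6 h7

theorem connected₀ : G₀.Connected :=
  ⟨⟨0⟩, fun u v => (reach u).2.trans (reach v).1⟩

end Pool.Agent.MP7c139f.MultiGraph
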